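import Mathlib

/-!
`labelledCopyCount G H = |Aut H| * copyCount G H`, and the automorphism counts of the three trees
on five vertices.
-/

namespace Pool.Agent.Q267.CopyAut

open SimpleGraph Finset

theorem exists_iso_of_subgraph_eq {V : Type*} {G : SimpleGraph V} (K K' : G.Subgraph) (h : K = K') :
    ∃ φ : K.coe ≃g K'.coe, ∀ x, (φ x : V) = x := by
  subst h
  exact ⟨Iso.refl, fun _ => rfl⟩

theorem isoToSubgraph_val {V W : Type*} {G : SimpleGraph V} {H : SimpleGraph W} (f : Copy H G)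
    (a : W) : (f.isoToSubgraph a : V) = f a := rfl

theorem exists_aut {V W : Type*} {G : SimpleGraph V} {H : SimpleGraph W} (f f0 : Copy H G)
    (h : f.toSubgraph = f0.toSubgraph) : ∃ e : H ≃g H, f0.comp e.toCopy = f := by
  obtain ⟨φ, hφ⟩ := exists_iso_of_subgraph_eq _ _ h
  refine ⟨(f.isoToSubgraph.trans φ).trans f0.isoToSubgraph.symm, ?_⟩
  ext a
  rw [Copy.comp_apply]
  have h1 : f0 (f0.isoToSubgraph.symm (φ (f.isoToSubgraph a))) = f a := by
    rw [← isoToSubgraph_val f0, RelIso.apply_symm_apply, hφ, isoToSubgraph_val]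
  exact h1

theorem toSubgraph_comp {V W : Type*} {G : SimpleGraph V} {H : SimpleGraph W} (f0 : Copy H G)
    (e : H ≃g H) : (f0.comp e.toCopy).toSubgraph = f0.toSubgraph := by
  ext x y
  · simp only [Subgraph.map_verts, Subgraph.verts_top, Set.image_univ, Set.mem_range]
    constructor
    · rintro ⟨a, rfl⟩
      exact ⟨e a, rfl⟩
    · rintro ⟨a, rfl⟩
      refine ⟨e.symm a, ?_⟩
      show f0 (e (e.symm a)) = f0 a
      rw [RelIso.apply_symm_apply]
  · simp only [Subgraph.map_adj, Relation.Map, Subgraph.top_adj]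
    constructor
    · rintro ⟨a, b, hab, rfl, rfl⟩
      exact ⟨e a, e b, e.map_adj_iff.mpr hab, rfl, rfl⟩
    · rintro ⟨a, b, hab, rfl, rfl⟩
      refine ⟨e.symm a, e.symm b, e.symm.map_adj_iff.mpr hab, ?_, ?_⟩
      · show f0 (e (e.symm a)) = f0 a
        rw [RelIso.apply_symm_apply]
      · show f0 (e (e.symm b)) = f0 b
        rw [RelIso.apply_symm_apply]

theorem labelled_eq {V W : Type*} [Fintype V] [Fintype W] (G : SimpleGraph V) (H : SimpleGraph W) :
    G.labelledCopyCount H = Nat.card (H ≃g H) * G.copyCount H := by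
  classical
  unfold labelledCopyCount
  rw [copyCount_eq_card_image_copyToSubgraph, ← Finset.card_univ, mul_comm]
  rw [Finset.card_eq_sum_card_image (Copy.toSubgraph) (Finset.univ : Finset (Copy H G))]
  apply Finset.sum_const_nat
  intro K hK
  obtain ⟨f0, -, rfl⟩ := Finset.mem_image.mp hK
  haveI : Fintype (H ≃g H) := Fintype.ofInjective (fun e => e.toEquiv)
    (fun a b h => RelIso.toEquiv_injective h)
  rw [Nat.card_eq_fintype_card, ← Finset.card_univ]
  symm
  refine Finset.card_bij (fun e _ => f0.comp e.toCopy) ?_ ?_ ?_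
  · intro e _
    simp only [Finset.mem_filter, Finset.mem_univ, true_and]
    exact toSubgraph_comp f0 e
  · intro e1 _ e2 _ h
    apply RelIso.ext
    intro a
    have h1 : (f0.comp e1.toCopy) a = (f0.comp e2.toCopy) a := by rw [h]
    exact f0.injective h1
  · intro f hf
    simp only [Finset.mem_filter, Finset.mem_univ, true_and] at hf
    obtain ⟨e, he⟩ := exists_aut f f0 hf
    exact ⟨e, Finset.mem_univ _, he⟩

/-- the path with five vertices -/
def pathTree : SimpleGraph (Fin 5) := pathGraph 5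

/-- the star with four leaves; the centre is `0` -/
def starTree : SimpleGraph (Fin 5) where
  Adj i j := i ≠ j ∧ (i = 0 ∨ j = 0)
  symm := ⟨fun _ _ h => ⟨h.1.symm, h.2.symm⟩⟩
  loopless := ⟨fun _ h => h.1 rfl⟩

/-- the tree with edges `01, 02, 03, 34` -/
def yTree : SimpleGraph (Fin 5) where
  Adj i j := (i = 0 ∧ j = 1) ∨ (i = 0 ∧ j = 2) ∨ (i = 0 ∧ j = 3) ∨ (i = 3 ∧ j = 4) ∨
    (j = 0 ∧ i = 1) ∨ (j = 0 ∧ i = 2) ∨ (j = 0 ∧ i = 3) ∨ (j = 3 ∧ i = 4)
  symm := ⟨fun _ _ h => by tauto⟩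
  loopless := ⟨fun i h => by omega⟩

instance : DecidableRel pathTree.Adj := fun i j =>
  decidable_of_iff (i.val + 1 = j.val ∨ j.val + 1 = i.val) (by rw [pathTree, pathGraph_adj])

instance : DecidableRel starTree.Adj := fun i j =>
  inferInstanceAs (Decidable (i ≠ j ∧ (i = 0 ∨ j = 0)))

instance : DecidableRel yTree.Adj := fun i j =>
  inferInstanceAs (Decidable ((i = 0 ∧ j = 1) ∨ (i = 0 ∧ j = 2) ∨ (i = 0 ∧ j = 3) ∨ (i = 3 ∧ j = 4) ∨
    (j = 0 ∧ i = 1) ∨ (j = 0 ∧ i = 2) ∨ (j = 0 ∧ i = 3) ∨ (j = 3 ∧ i = 4)))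

theorem card_aut (H : SimpleGraph (Fin 5)) [DecidableRel H.Adj] :
    Nat.card (H ≃g H) =
      Fintype.card {σ : Equiv.Perm (Fin 5) // ∀ a b, H.Adj (σ a) (σ b) ↔ H.Adj a b} := by
  rw [← Nat.card_eq_fintype_card]
  exact Nat.card_congr
    { toFun := fun e => ⟨e.toEquiv, fun a b => e.map_rel_iff⟩
      invFun := fun s => ⟨s.1, fun {a b} => s.2 a b⟩
      left_inv := fun e => rfl
      right_inv := fun s => rfl }

set_option maxRecDepth 100000 in
theorem aut_path : Nat.card (pathTree ≃g pathTree) = 2 := by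
  rw [card_aut]
  decide +kernel

set_option maxRecDepth 100000 in
theorem aut_star : Nat.card (starTree ≃g starTree) = 24 := by
  rw [card_aut]
  decide +kernel

set_option maxRecDepth 100000 in
theorem aut_y : Nat.card (yTree ≃g yTree) = 2 := by
  rw [card_aut]
  decide +kernel

end Pool.Agent.Q267.CopyAut
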