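import Mathlib.Combinatorics.SimpleGraph.Maps
import Mathlib.Data.Fintype.EquivFin
import Mathlib.Logic.Equiv.Fintype
import Mathlib.Tactic

/-!
# Degree-sequence-forcing sets: the family `D(G)`

Definitions and general facts, followed by a graph `G₀` on 12 vertices for which `D(G₀)` has
arbitrarily large members.
-/

namespace Pool.Agent.Q267.DegForcing

open Finset Classical

section theory

variable {α β γ : Type} [Fintype α] [Fintype β] [Fintype γ]

theorem card_filter_iff {δ : Type} {s : Finset δ} {p q : δ → Prop} {_ : DecidablePred p}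
    {_ : DecidablePred q} (h : ∀ x, p x ↔ q x) : (s.filter p).card = (s.filter q).card := by
  congr 1
  ext x
  rw [mem_filter, mem_filter, h x]

/-- The number of neighbours of a vertex. -/
noncomputable def dg (H : SimpleGraph α) (v : α) : ℕ := (univ.filter (fun w => H.Adj v w)).card

/-- The degree sequence, as a multiset. -/
noncomputable def degs (H : SimpleGraph α) : Multiset ℕ := univ.val.map (dg H)

theorem dg_iso {H : SimpleGraph α} {H' : SimpleGraph β} (e : H ≃g H') (v : α) :
    dg H' (e v) = dg H v := by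
  unfold dg
  rw [← card_map e.toEquiv.toEmbedding]
  congr 1
  ext w
  rw [mem_map_equiv, mem_filter, mem_filter]
  have h : H'.Adj (e v) w ↔ H.Adj v (e.toEquiv.symm w) := by
    have := e.map_adj_iff (v := v) (w := e.toEquiv.symm w)
    rw [← this]
    have h2 : e (e.toEquiv.symm w) = w := e.toEquiv.apply_symm_apply w
    rw [h2]
  rw [h]
  simp only [mem_univ, true_and]

theorem degs_iso {H : SimpleGraph α} {H' : SimpleGraph β} (e : H ≃g H') : degs H = degs H' := by
  unfold degs
  have h1 : dg H = dg H' ∘ e.toEquiv := by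
    funext v
    exact (dg_iso e v).symm
  rw [h1, ← Multiset.map_map, Multiset.map_univ_val_equiv e.toEquiv]

theorem degs_congr {H H' : SimpleGraph α} (h : ∀ v, dg H v = dg H' v) : degs H = degs H' := by
  unfold degs
  rw [funext h]

/-- Equality of multisets of values gives a bijection. -/
theorem exists_equiv {f : α → ℕ} {g : β → ℕ} (h : univ.val.map f = univ.val.map g) :
    ∃ e : α ≃ β, ∀ a, g (e a) = f a := by
  have hc : ∀ c, Fintype.card {a // f a = c} = Fintype.card {b // g b = c} := by
    intro c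
    have h1 : Multiset.count c (univ.val.map f) = (univ.filter (fun a => f a = c)).card := by
      rw [Multiset.count_map]
      change _ = Multiset.card _
      rw [Finset.filter_val]
      congr 1
      apply Multiset.filter_congr
      intro x _
      exact eq_comm
    have h2 : Multiset.count c (univ.val.map g) = (univ.filter (fun a => g a = c)).card := by
      rw [Multiset.count_map]
      change _ = Multiset.card _
      rw [Finset.filter_val]
      congr 1
      apply Multiset.filter_congr
      intro x _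
      exact eq_comm
    rw [Fintype.card_subtype, Fintype.card_subtype, ← h1, ← h2, h]
  exact ⟨Equiv.ofFiberEquiv (fun c => Fintype.equivOfCardEq (hc c)),
    fun a => Equiv.ofFiberEquiv_map _ a⟩

theorem exists_relabel {H : SimpleGraph α} {H' : SimpleGraph β} (h : degs H = degs H') :
    ∃ H'' : SimpleGraph α, (∀ v, dg H'' v = dg H v) ∧ Nonempty (H' ≃g H'') := by
  obtain ⟨e, he⟩ := exists_equiv h
  refine ⟨H'.comap e, ?_, ⟨(SimpleGraph.Iso.comap e H').symm⟩⟩
  intro v
  rw [← he v]
  exact (dg_iso (SimpleGraph.Iso.comap e H') v).symm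

/-- The labelled form of membership in `P(G)`. -/
def PP (G : SimpleGraph α) (H : SimpleGraph β) : Prop :=
  ∃ H' : SimpleGraph β, (∀ v, dg H' v = dg H v) ∧ Nonempty (G ↪g H')

theorem dg_split (X : SimpleGraph β) (ι : γ ↪ β) (v : β) :
    dg X v = (univ.filter (fun b => X.Adj v (ι b))).card +
      (univ.filter (fun w => w ∉ Set.range ι ∧ X.Adj v w)).card := by
  unfold dg
  rw [← card_map ι, ← card_union_of_disjoint]
  · congr 1
    ext w
    simp only [mem_filter, mem_univ, true_and, mem_union, mem_map, Set.mem_range]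
    constructor
    · intro h
      by_cases hw : ∃ y, ι y = w
      · obtain ⟨y, rfl⟩ := hw
        exact Or.inl ⟨y, h, rfl⟩
      · exact Or.inr ⟨hw, h⟩
    · rintro (⟨y, hy, rfl⟩ | ⟨-, h⟩)
      · exact hy
      · exact h
  · rw [disjoint_left]
    intro w hw hw'
    simp only [mem_filter, mem_univ, true_and, mem_map, Set.mem_range] at hw hw'
    obtain ⟨y, -, rfl⟩ := hw
    exact hw'.1 ⟨y, rfl⟩

/-- `P(G)` is closed under taking larger graphs. -/
theorem PP_mono {G : SimpleGraph α} {H₀ : SimpleGraph γ} {H : SimpleGraph β} (ι : H₀ ↪g H)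
    (h : PP G H₀) : PP G H := by
  obtain ⟨H', hd, ⟨φ⟩⟩ := h
  let K : SimpleGraph β :=
    { Adj := fun u v => (∃ a b, ι a = u ∧ ι b = v ∧ H'.Adj a b) ∨
        ((u ∉ Set.range ι ∨ v ∉ Set.range ι) ∧ H.Adj u v)
      symm := by
        constructor
        rintro u v (⟨a, b, h1, h2, h3⟩ | ⟨h1, h2⟩)
        · exact Or.inl ⟨b, a, h2, h1, h3.symm⟩
        · exact Or.inr ⟨h1.symm, h2.symm⟩
      loopless := by
        constructor
        rintro u (⟨a, b, h1, h2, h3⟩ | ⟨h1, h2⟩)
        · have := ι.injective (h1.trans h2.symm)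
          rw [this] at h3
          exact h3.ne rfl
        · exact h2.ne rfl }
  have hK1 : ∀ a b, K.Adj (ι a) (ι b) ↔ H'.Adj a b := by
    intro a b
    constructor
    · rintro (⟨a', b', h1, h2, h3⟩ | ⟨h1, h2⟩)
      · rwa [ι.injective h1, ι.injective h2] at h3
      · rcases h1 with h1 | h1
        · exact absurd ⟨a, rfl⟩ h1
        · exact absurd ⟨b, rfl⟩ h1
    · intro h
      exact Or.inl ⟨a, b, rfl, rfl, h⟩
  have hK2 : ∀ u v, (u ∉ Set.range ι ∨ v ∉ Set.range ι) → (K.Adj u v ↔ H.Adj u v) := by
    intro u v huv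
    constructor
    · rintro (⟨a', b', h1, h2, h3⟩ | ⟨h1, h2⟩)
      · rcases huv with h | h
        · exact absurd ⟨a', h1⟩ h
        · exact absurd ⟨b', h2⟩ h
      · exact h2
    · intro h
      exact Or.inr ⟨huv, h⟩
  refine ⟨K, ?_, ⟨⟨⟨fun a => ι (φ a), fun a b hab => φ.injective (ι.injective hab)⟩, ?_⟩⟩⟩
  · intro v
    by_cases hv : v ∈ Set.range ι
    · obtain ⟨a, rfl⟩ := hv
      rw [dg_split K ι.toEmbedding, dg_split H ι.toEmbedding]
      congr 1
      · have h1 : dg H' a = dg H₀ a := hd a
        unfold dg at h1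
        refine Eq.trans ?_ (h1.trans ?_)
        · exact card_filter_iff (fun b => hK1 a b)
        · exact card_filter_iff (fun b => ι.map_adj_iff.symm)
      · apply card_filter_iff
        intro w
        constructor
        · rintro ⟨h1, h2⟩
          exact ⟨h1, (hK2 _ _ (Or.inr h1)).1 h2⟩
        · rintro ⟨h1, h2⟩
          exact ⟨h1, (hK2 _ _ (Or.inr h1)).2 h2⟩
    · unfold dg
      exact card_filter_iff (fun w => hK2 _ _ (Or.inl hv))
  · intro a b
    change K.Adj (ι (φ a)) (ι (φ b)) ↔ G.Adj a b
    rw [hK1]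
    exact φ.map_adj_iff

end theory

/-! ## Graphs up to isomorphism -/

/-- Graphs on the vertex sets `{0, …, n-1}`: every finite graph is isomorphic to one of these. -/
abbrev Gr := Σ n : ℕ, SimpleGraph (Fin n)

/-- `H` induces `G`: some induced subgraph of `H` is isomorphic to `G`. -/
def Induces (H G : Gr) : Prop := Nonempty (G.2 ↪g H.2)

/-- `H` lies in `P(G)`: some graph with the degree sequence of `H` induces `G`. -/
def InP (G H : Gr) : Prop := ∃ H' : Gr, degs H'.2 = degs H.2 ∧ Induces H' G

/-- `H` lies in `D(G)`: it lies in `P(G)`, but no proper induced subgraph does. -/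
def InD (G H : Gr) : Prop := InP G H ∧ ∀ H₀ : Gr, Induces H H₀ → H₀.1 < H.1 → ¬ InP G H₀

theorem inP_iff {G H : Gr} : InP G H ↔ PP G.2 H.2 := by
  constructor
  · rintro ⟨H', h1, ⟨φ⟩⟩
    obtain ⟨H'', h2, ⟨e⟩⟩ := exists_relabel h1.symm
    exact ⟨H'', h2, ⟨φ.trans e.toEmbedding⟩⟩
  · rintro ⟨H', h1, ⟨φ⟩⟩
    exact ⟨⟨H.1, H'⟩, degs_congr h1, ⟨φ⟩⟩

theorem Induces.trans {A B C : Gr} (h1 : Induces A B) (h2 : Induces B C) : Induces A C := by
  obtain ⟨f⟩ := h1
  obtain ⟨g⟩ := h2
  exact ⟨g.trans f⟩

theorem Induces.refl (A : Gr) : Induces A A := ⟨SimpleGraph.Embedding.refl⟩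

theorem inP_mono {G H H₀ : Gr} (h : Induces H H₀) (h0 : InP G H₀) : InP G H := by
  rw [inP_iff] at h0 ⊢
  obtain ⟨ι⟩ := h
  exact PP_mono ι h0

/-- Every member of `P(G)` induces a member of `D(G)`. -/
theorem exists_inD {G : Gr} : ∀ n (H : Gr), H.1 = n → InP G H → ∃ H₀, Induces H H₀ ∧ InD G H₀ := by
  intro n
  induction n using Nat.strong_induction_on with
  | _ n ih =>
    intro H hn hP
    by_cases h : InD G H
    · exact ⟨H, Induces.refl H, h⟩
    · have : ∃ H₀ : Gr, Induces H H₀ ∧ H₀.1 < H.1 ∧ InP G H₀ := by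
        by_contra hc
        apply h
        refine ⟨hP, fun H₀ h1 h2 h3 => hc ⟨H₀, h1, h2, h3⟩⟩
      obtain ⟨H₀, h1, h2, h3⟩ := this
      obtain ⟨H₁, h4, h5⟩ := ih H₀.1 (by omega) H₀ rfl h3
      exact ⟨H₁, h1.trans h4, h5⟩

/-- The family `D(G)` is infinite as soon as `P(G)` has graphs all of whose members of `P(G)`
among induced subgraphs are large. -/
theorem infinite_of {G : Gr} (h : ∀ N, ∃ H : Gr, InP G H ∧
    ∀ H₀, Induces H H₀ → InP G H₀ → N ≤ H₀.1) :
    ∃ F : ℕ → Gr, (∀ i, InD G (F i)) ∧ ∀ i j, i < j → (F i).1 < (F j).1 := by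
  have h' : ∀ N, ∃ X : Gr, InD G X ∧ N ≤ X.1 := by
    intro N
    obtain ⟨H, h1, h2⟩ := h N
    obtain ⟨H₀, h3, h4⟩ := exists_inD H.1 H rfl h1
    exact ⟨H₀, h4, h2 H₀ h3 h4.1⟩
  choose X hX1 hX2 using h'
  let g : ℕ → ℕ := fun i => Nat.rec 0 (fun _ r => (X r).1 + 1) i
  have hg : ∀ i, g (i + 1) = (X (g i)).1 + 1 := fun _ => rfl
  refine ⟨fun i => X (g i), fun i => hX1 _, ?_⟩
  have hstep : ∀ i, (X (g i)).1 < (X (g (i + 1))).1 := by
    intro i
    have := hX2 (g (i + 1))
    rw [hg i] at this
    rw [hg i]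
    omega
  exact fun i j hij => strictMono_nat_of_lt_succ hstep hij

/-! ## The defect identity -/

section defect

variable {U : Type} [Fintype U]

/-- The bad pairs of a graph with respect to a labelling of its vertices by clique (`some
true`), independent (`some false`) and inner (`none`). -/
def Bad (lab : U → Option Bool) (X : SimpleGraph U) (u w : U) : Prop :=
  (lab u = some true ∧ u ≠ w ∧ lab w ≠ some false ∧ ¬ X.Adj u w) ∨
    (lab u = some false ∧ lab w ≠ some true ∧ X.Adj u w)

/-- The weight of a label. -/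
def wt : Option Bool → ℤ
  | some true => 1
  | some false => -1
  | none => 0

/-- The number of bad pairs. -/
noncomputable def defect (lab : U → Option Bool) (X : SimpleGraph U) : ℤ :=
  ∑ u, ∑ w, if Bad lab X u w then 1 else 0

theorem defect_eq (lab : U → Option Bool) (X : SimpleGraph U) :
    defect lab X = (∑ u, ∑ w, if lab u = some true ∧ u ≠ w ∧ lab w ≠ some false then (1 : ℤ) else 0)
      - ∑ u, wt (lab u) * dg X u := by
  have h1 : ∀ u, wt (lab u) * (dg X u : ℤ) = ∑ w, wt (lab u) * (if X.Adj u w then 1 else 0) := by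
    intro u
    unfold dg
    rw [← mul_sum, card_filter]
    push_cast
    rfl
  simp only [h1]
  have anti : (∑ u, ∑ w, ((if lab u = some true ∧ lab w = some false ∧ X.Adj u w then (1 : ℤ)
      else 0) - (if lab w = some true ∧ lab u = some false ∧ X.Adj u w then (1 : ℤ) else 0))) = 0 := by
    have e1 : ∀ f : U → U → ℤ, (∀ u w, f u w = - f w u) → ∑ u, ∑ w, f u w = 0 := by
      intro f hf
      have h2 : ∑ u, ∑ w, f u w = - ∑ u, ∑ w, f u w := by
        conv_lhs => rw [sum_comm]
        rw [← sum_neg_distrib]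
        apply sum_congr rfl
        intro u _
        rw [← sum_neg_distrib]
        apply sum_congr rfl
        intro w _
        exact hf w u
      linarith
    apply e1
    intro u w
    rw [X.adj_comm w u]
    ring
  have key : (∑ u, ∑ w, ((if Bad lab X u w then (1 : ℤ) else 0) -
      ((if lab u = some true ∧ u ≠ w ∧ lab w ≠ some false then (1 : ℤ) else 0) -
        wt (lab u) * (if X.Adj u w then 1 else 0)))) =
      ∑ u, ∑ w, ((if lab u = some true ∧ lab w = some false ∧ X.Adj u w then (1 : ℤ)
      else 0) - (if lab w = some true ∧ lab u = some false ∧ X.Adj u w then (1 : ℤ) else 0)) := by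
    apply sum_congr rfl
    intro u _
    apply sum_congr rfl
    intro w _
    unfold Bad
    by_cases huw : u = w
    · subst huw
      have hl : ¬ X.Adj u u := fun h => h.ne rfl
      rcases hu : lab u with _ | (_ | _) <;> simp [hl, wt]
    · by_cases hadj : X.Adj u w
      · rcases hu : lab u with _ | (_ | _) <;> rcases hw : lab w with _ | (_ | _) <;>
          simp [hadj, wt, huw]
      · rcases hu : lab u with _ | (_ | _) <;> rcases hw : lab w with _ | (_ | _) <;>
          simp [hadj, wt, huw]
  rw [anti] at key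
  unfold defect
  simp only [sum_sub_distrib] at key
  linarith

theorem defect_congr (lab : U → Option Bool) {X Y : SimpleGraph U} (h : ∀ v, dg X v = dg Y v) :
    defect lab X = defect lab Y := by
  rw [defect_eq, defect_eq]
  simp only [h]

theorem defect_zero {lab : U → Option Bool} {X : SimpleGraph U} (h : defect lab X ≤ 0) (u w : U) :
    ¬ Bad lab X u w := by
  intro hb
  have h1 : (1 : ℤ) ≤ defect lab X := by
    unfold defect
    have h2 : (∑ w', if Bad lab X u w' then (1 : ℤ) else 0) ≤
        ∑ u', ∑ w', if Bad lab X u' w' then (1 : ℤ) else 0 :=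
      single_le_sum (f := fun u' => ∑ w', if Bad lab X u' w' then (1 : ℤ) else 0)
        (fun u' _ => sum_nonneg (fun w' _ => by split_ifs <;> norm_num)) (mem_univ u)
    have h3 : (if Bad lab X u w then (1 : ℤ) else 0) ≤
        ∑ w', if Bad lab X u w' then (1 : ℤ) else 0 :=
      single_le_sum (f := fun w' => if Bad lab X u w' then (1 : ℤ) else 0)
        (fun w' _ => by split_ifs <;> norm_num) (mem_univ w)
    rw [if_pos hb] at h3
    linarith
  linarith

theorem defect_one {lab : U → Option Bool} {X : SimpleGraph U} (h : defect lab X ≤ 1) {u w w' : U}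
    (hw : w ≠ w') (h1 : Bad lab X u w) (h2 : Bad lab X u w') : False := by
  have h3 : (∑ w', if Bad lab X u w' then (1 : ℤ) else 0) ≤ defect lab X := by
    unfold defect
    exact single_le_sum (f := fun u' => ∑ w', if Bad lab X u' w' then (1 : ℤ) else 0)
        (fun u' _ => sum_nonneg (fun w' _ => by split_ifs <;> norm_num)) (mem_univ u)
  have h4 : (2 : ℤ) ≤ ∑ w', if Bad lab X u w' then (1 : ℤ) else 0 := by
    have h5 : ∑ x ∈ ({w, w'} : Finset U), (if Bad lab X u x then (1 : ℤ) else 0) ≤
        ∑ w', if Bad lab X u w' then (1 : ℤ) else 0 :=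
      sum_le_sum_of_subset_of_nonneg (subset_univ _)
        (fun x _ _ => by split_ifs <;> norm_num)
    rw [sum_pair hw, if_pos h1, if_pos h2] at h5
    linarith
  linarith

theorem defect_le_zero {lab : U → Option Bool} {X : SimpleGraph U} (h : ∀ u w, ¬ Bad lab X u w) :
    defect lab X ≤ 0 := by
  unfold defect
  apply le_of_eq
  apply sum_eq_zero
  intro u _
  apply sum_eq_zero
  intro w _
  rw [if_neg (h u w)]

theorem defect_le_one {lab : U → Option Bool} {X : SimpleGraph U} {a b : U → Prop}
    (ha : ∀ u u', a u → a u' → u = u') (hb : ∀ u u', b u → b u' → u = u')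
    (h : ∀ u w, Bad lab X u w → a u ∧ b w) : defect lab X ≤ 1 := by
  by_cases hex : ∃ u w, Bad lab X u w
  · obtain ⟨u₀, w₀, h0⟩ := hex
    obtain ⟨hu0, hw0⟩ := h u₀ w₀ h0
    unfold defect
    rw [sum_eq_single u₀, sum_eq_single w₀]
    · split_ifs <;> norm_num
    · intro w _ hw
      rw [if_neg]
      intro hbad
      exact hw (hb _ _ (h _ _ hbad).2 hw0)
    · intro hn
      exact absurd (mem_univ _) hn
    · intro u _ hu
      apply sum_eq_zero
      intro w _
      rw [if_neg]
      intro hbad
      exact hu (ha _ _ (h _ _ hbad).1 hu0)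
    · intro hn
      exact absurd (mem_univ _) hn
  · have : ∀ u w, ¬ Bad lab X u w := fun u w hb => hex ⟨u, w, hb⟩
    exact (defect_le_zero this).trans (by norm_num)

end defect

/-! ## The example -/

/-- The vertices: a path part `0, …, N+1` and ten further vertices. -/
abbrev Vx (N : ℕ) := Fin (N + 2) ⊕ Fin 10

/-- Adjacency among the ten further vertices `k₁ k₂ a₁ a₂ b₁ b₂ c₁ z₁ z₂ z₃` (numbered
`0, …, 9`). -/
def adjQ (q r : Fin 10) : Bool :=
  decide ((q.val, r.val) ∈ ([(0, 1), (2, 0), (3, 0), (4, 1), (5, 1), (6, 0), (6, 1), (7, 8),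
    (8, 9), (0, 7), (0, 8), (0, 9), (1, 7), (1, 8), (1, 9)] : List (ℕ × ℕ))) ||
  decide ((r.val, q.val) ∈ ([(0, 1), (2, 0), (3, 0), (4, 1), (5, 1), (6, 0), (6, 1), (7, 8),
    (8, 9), (0, 7), (0, 8), (0, 9), (1, 7), (1, 8), (1, 9)] : List (ℕ × ℕ)))

theorem adjQ_symm : ∀ q r, adjQ q r = adjQ r q := by decide +kernel

theorem adjQ_irrefl : ∀ q, adjQ q q = false := by decide +kernel

/-- Adjacency between the path part and the further vertices. -/
def AdjP (N i q : ℕ) : Prop :=
  (i = 0 ∧ q ≠ 6) ∨ (i = N + 1 ∧ (q = 0 ∨ q = 1 ∨ q = 7 ∨ q = 9)) ∨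
    (0 < i ∧ i < N + 1 ∧ (q < 2 ∨ (7 ≤ q ∧ i % 2 = 0)))

/-- The graph with a given adjacency `S` inside the path part. -/
def graphOf (N : ℕ) (S : ℕ → ℕ → Prop) (hS : ∀ i, ¬ S i i) : SimpleGraph (Vx N) where
  Adj
    | Sum.inl i, Sum.inl j => S i j ∨ S j i
    | Sum.inl i, Sum.inr q => AdjP N i q
    | Sum.inr q, Sum.inl i => AdjP N i q
    | Sum.inr q, Sum.inr r => adjQ q r = true
  symm := by
    constructor
    rintro (i | q) (j | r) h
    · exact h.symm
    · exact h
    · exact h
    · change adjQ r q = true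
      rw [adjQ_symm]
      exact h
  loopless := by
    constructor
    rintro (i | q) h
    · rcases h with h | h
      · exact hS _ h
      · exact hS _ h
    · change adjQ q q = true at h
      rw [adjQ_irrefl] at h
      exact absurd h (by simp)

/-- The staircase adjacency. -/
def S1 (i j : ℕ) : Prop := i < j ∧ ((i % 2 = 0 ∧ j ≠ i + 1) ∨ (i % 2 = 1 ∧ j = i + 1))

/-- The composition adjacency, with the pair `0, N+1` deleted. -/
def S2 (N i j : ℕ) : Prop := i < j ∧ i % 2 = 0 ∧ ¬ (i = 0 ∧ j = N + 1)

/-- The graph `H_N`. -/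
def HH (N : ℕ) : SimpleGraph (Vx N) := graphOf N S1 (fun i h => by unfold S1 at h; omega)

/-- The graph `H'_N`. -/
def HH' (N : ℕ) : SimpleGraph (Vx N) := graphOf N (S2 N) (fun i h => by unfold S2 at h; omega)

theorem card_swap {δ : Type} [Fintype δ] {p q : δ → Prop} {_ : DecidablePred p}
    {_ : DecidablePred q} (a b : δ) (h : ∀ x, x ≠ a → x ≠ b → (p x ↔ q x)) (h1 : p a ↔ q b)
    (h2 : p b ↔ q a) : (univ.filter p).card = (univ.filter q).card := by
  rw [← card_map (Equiv.swap a b).toEmbedding]
  congr 1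
  ext x
  rw [mem_map_equiv, mem_filter, mem_filter, Equiv.symm_swap]
  simp only [mem_univ, true_and]
  by_cases ha : x = a
  · subst ha
    rw [Equiv.swap_apply_left]
    exact h2
  · by_cases hb : x = b
    · subst hb
      rw [Equiv.swap_apply_right]
      exact h1
    · rw [Equiv.swap_apply_of_ne_of_ne ha hb]
      exact h x ha hb

theorem dg_eq (N : ℕ) (hN : N % 2 = 0) (h1 : 1 ≤ N) (v : Vx N) : dg (HH' N) v = dg (HH N) v := by
  rcases v with i | q
  · -- the two neighbours on the cycle
    have hi := i.isLt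
    have hab : ∃ a b : Fin (N + 2), (a.val = if i.val = 0 then 1 else i.val - 1) ∧
        (b.val = if i.val = 0 then N + 1 else if i.val = N + 1 then 0 else i.val + 1) := by
      refine ⟨⟨if i.val = 0 then 1 else i.val - 1, ?_⟩,
        ⟨if i.val = 0 then N + 1 else if i.val = N + 1 then 0 else i.val + 1, ?_⟩, rfl, rfl⟩
      · split_ifs <;> omega
      · split_ifs <;> omega
    obtain ⟨a, b, ha, hb⟩ := hab
    have hal := a.isLt
    have hbl := b.isLt
    unfold dg
    apply card_swap (Sum.inl a) (Sum.inl b)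
    · rintro (j | q) hja hjb
      · have h3 : j.val ≠ a.val := fun e => hja (by rw [Fin.ext e])
        have h4 : j.val ≠ b.val := fun e => hjb (by rw [Fin.ext e])
        have hj := j.isLt
        change (S2 N i j ∨ S2 N j i) ↔ (S1 i j ∨ S1 j i)
        unfold S1 S2
        split_ifs at ha hb <;> omega
      · exact Iff.rfl
    · change (S2 N i a ∨ S2 N a i) ↔ (S1 i b ∨ S1 b i)
      unfold S1 S2
      split_ifs at ha hb <;> omega
    · change (S2 N i b ∨ S2 N b i) ↔ (S1 i a ∨ S1 a i)
      unfold S1 S2
      split_ifs at ha hb <;> omega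
  · unfold dg
    apply card_filter_iff
    rintro (j | r)
    · exact Iff.rfl
    · exact Iff.rfl

/-- `HH 0` is an induced subgraph of `H'_N`. -/
theorem embed (N : ℕ) : Nonempty (HH 0 ↪g HH' N) := by
  let f : Vx 0 → Vx N
    | Sum.inl i => Sum.inl ⟨if i.val = 0 then 0 else N + 1, by split_ifs <;> omega⟩
    | Sum.inr q => Sum.inr q
  refine ⟨⟨⟨f, ?_⟩, ?_⟩⟩
  · rintro (i | q) (j | r) h
    · have h1 := congrArg Fin.val (Sum.inl.inj h)
      simp only at h1
      have hi := i.isLt
      have hj := j.isLt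
      congr 1
      ext
      split_ifs at h1 <;> omega
    · exact absurd h (by simp [f])
    · exact absurd h (by simp [f])
    · exact congrArg Sum.inr (Sum.inr.inj h)
  · rintro (i | q) (j | r)
    · have hi := i.isLt
      have hj := j.isLt
      change (S2 N (if i.val = 0 then 0 else N + 1) (if j.val = 0 then 0 else N + 1) ∨
        S2 N (if j.val = 0 then 0 else N + 1) (if i.val = 0 then 0 else N + 1)) ↔
          (S1 i j ∨ S1 j i)
      unfold S1 S2
      split_ifs <;> omega
    · have hi := i.isLt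
      change AdjP N (if i.val = 0 then 0 else N + 1) r ↔ AdjP 0 i r
      unfold AdjP
      split_ifs with h
      · rw [h]
        simp
      · have : i.val = 1 := by omega
        rw [this]
        simp
    · have hj := j.isLt
      change AdjP N (if j.val = 0 then 0 else N + 1) q ↔ AdjP 0 j q
      unfold AdjP
      split_ifs with h
      · rw [h]
        simp
      · have : j.val = 1 := by omega
        rw [this]
        simp
    · exact Iff.rfl

theorem PP_HH (N : ℕ) (hN : N % 2 = 0) (h1 : 1 ≤ N) : PP (HH 0) (HH N) :=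
  ⟨HH' N, dg_eq N hN h1, embed N⟩

/-! ### The labels of the cuts -/

/-- The labelling of the cut after position `t` of the path part. -/
def lb (N t : ℕ) : Vx N → Option Bool
  | Sum.inl i => if i.val ≤ t then some (decide (i.val % 2 = 0)) else none
  | Sum.inr q => if q.val < 2 then some true else if q.val < 7 then some false else none

theorem adjQ_true : ∀ q r : Fin 10, q.val < 2 → q ≠ r → (r.val < 2 ∨ 7 ≤ r.val) →
    adjQ q r = true := by
  decide +kernel

theorem adjQ_false : ∀ q r : Fin 10, 2 ≤ q.val → q.val < 7 → 2 ≤ r.val → adjQ q r = false := by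
  decide +kernel

theorem lb_inl_true {N t : ℕ} {i : Fin (N + 2)} :
    lb N t (Sum.inl i) = some true ↔ i.val ≤ t ∧ i.val % 2 = 0 := by
  unfold lb
  by_cases h : i.val ≤ t <;> simp [h]

theorem lb_inl_false {N t : ℕ} {i : Fin (N + 2)} :
    lb N t (Sum.inl i) = some false ↔ i.val ≤ t ∧ i.val % 2 = 1 := by
  unfold lb
  by_cases h : i.val ≤ t <;> simp [h]

theorem lb_inr_true {N t : ℕ} {q : Fin 10} : lb N t (Sum.inr q) = some true ↔ q.val < 2 := by
  unfold lb
  by_cases h : q.val < 2 <;> by_cases h2 : q.val < 7 <;> simp [h, h2]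

theorem lb_inr_false {N t : ℕ} {q : Fin 10} :
    lb N t (Sum.inr q) = some false ↔ 2 ≤ q.val ∧ q.val < 7 := by
  unfold lb
  by_cases h : q.val < 2 <;> by_cases h2 : q.val < 7 <;> simp [h, h2] <;> omega

/-- Only the pair `t, t+1` is bad for the cut after `t`. -/
theorem bad_only {N t : ℕ} (hN : N % 2 = 0) (ht : t ≤ N) {u w : Vx N}
    (h : Bad (lb N t) (HH N) u w) :
    ∃ i j : Fin (N + 2), u = Sum.inl i ∧ w = Sum.inl j ∧ i.val = t ∧ j.val = t + 1 := by
  rcases u with i | q
  · rcases w with j | r
    · refine ⟨i, j, rfl, rfl, ?_⟩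
      have hi := i.isLt
      have hj := j.isLt
      rcases h with ⟨h1, h2, h3, h4⟩ | ⟨h1, h2, h3⟩
      · have h2' : i.val ≠ j.val := fun e => h2 (by rw [Fin.ext e])
        change ¬ (S1 i j ∨ S1 j i) at h4
        unfold S1 at h4
        rw [lb_inl_true] at h1
        rw [Ne, lb_inl_false] at h3
        omega
      · change (S1 i j ∨ S1 j i) at h3
        unfold S1 at h3
        rw [lb_inl_false] at h1
        rw [Ne, lb_inl_true] at h2
        omega
    · exfalso
      have hi := i.isLt
      have hr := r.isLt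
      rcases h with ⟨h1, h2, h3, h4⟩ | ⟨h1, h2, h3⟩
      · change ¬ AdjP N i r at h4
        unfold AdjP at h4
        rw [lb_inl_true] at h1
        rw [Ne, lb_inr_false] at h3
        omega
      · change AdjP N i r at h3
        unfold AdjP at h3
        rw [lb_inl_false] at h1
        rw [Ne, lb_inr_true] at h2
        omega
  · exfalso
    rcases w with j | r
    · have hj := j.isLt
      have hq := q.isLt
      rcases h with ⟨h1, h2, h3, h4⟩ | ⟨h1, h2, h3⟩
      · change ¬ AdjP N j q at h4
        unfold AdjP at h4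
        rw [lb_inr_true] at h1
        rw [Ne, lb_inl_false] at h3
        omega
      · change AdjP N j q at h3
        unfold AdjP at h3
        rw [lb_inr_false] at h1
        rw [Ne, lb_inl_true] at h2
        omega
    · rcases h with ⟨h1, h2, h3, h4⟩ | ⟨h1, h2, h3⟩
      · change ¬ (adjQ q r = true) at h4
        rw [lb_inr_true] at h1
        rw [Ne, lb_inr_false] at h3
        exact h4 (adjQ_true q r h1 (fun e => h2 (by rw [e])) (by omega))
      · change adjQ q r = true at h3
        rw [lb_inr_false] at h1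
        rw [Ne, lb_inr_true] at h2
        rw [adjQ_false q r h1.1 h1.2 (by omega)] at h3
        exact absurd h3 (by simp)

/-! ### No labelling of `HH 0` -/

/-- The graph `HH 0`. -/
abbrev G0 : SimpleGraph (Vx 0) := HH 0

section nolabel

variable {L : Vx 0 → Option Bool}
  (hK : ∀ g h, L g = some true → g ≠ h → L h ≠ some false → G0.Adj g h)
  (hI : ∀ g h, L g = some false → L h ≠ some true → ¬ G0.Adj g h)

include hK hI

/-- The vertices of an induced 4-cycle are unlabelled. -/
theorem cycle_none {w x y z : Vx 0} (hwx : G0.Adj w x) (hxy : G0.Adj x y) (hyz : G0.Adj y z)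
    (hzw : G0.Adj z w) (hwy : ¬ G0.Adj w y) (hxz : ¬ G0.Adj x z) (hwy' : w ≠ y) (hxz' : x ≠ z) :
    L w = none := by
  have hfalse : ∀ u, L u = some false → G0.Adj u x → G0.Adj u z → False := by
    intro u hu h1 h2
    have k1 : L x = some true := by
      by_contra h
      exact hI u x hu h h1
    have k2 : L z = some true := by
      by_contra h
      exact hI u z hu h h2
    exact hxz (hK x z k1 hxz' (by rw [k2]; simp))
  rcases hw : L w with _ | (_ | _)
  · rfl
  · exact (hfalse w hw hwx hzw.symm).elim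
  · exfalso
    have k1 : L y = some false := by
      by_contra h
      exact hwy (hK w y hw hwy' h)
    exact hfalse y k1 hxy.symm hyz

theorem not_false_of {g h : Vx 0} (h1 : G0.Adj g h) (h2 : L h = none) : L g ≠ some false := by
  intro hg
  exact hI g h hg (by rw [h2]; simp) h1

theorem not_true_of {g h : Vx 0} (h1 : ¬ G0.Adj g h) (hne : g ≠ h) (h2 : L h = none) :
    L g ≠ some true := by
  intro hg
  exact h1 (hK g h hg hne (by rw [h2]; simp))

theorem none_of {g h h' : Vx 0} (h1 : G0.Adj g h) (h2 : L h = none) (h3 : ¬ G0.Adj g h')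
    (hne : g ≠ h') (h4 : L h' = none) : L g = none := by
  have k1 := not_false_of hK hI h1 h2
  have k2 := not_true_of hK hI h3 hne h4
  rcases hg : L g with _ | (_ | _)
  · rfl
  · exact absurd hg k1
  · exact absurd hg k2

end nolabel

instance (N : ℕ) : DecidableRel (HH N).Adj := by
  intro u v
  match u, v with
  | Sum.inl i, Sum.inl j =>
    exact (inferInstanceAs (Decidable (((i.val < j.val) ∧ ((i.val % 2 = 0 ∧ j.val ≠ i.val + 1) ∨
      (i.val % 2 = 1 ∧ j.val = i.val + 1))) ∨ ((j.val < i.val) ∧ ((j.val % 2 = 0 ∧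
        i.val ≠ j.val + 1) ∨ (j.val % 2 = 1 ∧ i.val = j.val + 1))))))
  | Sum.inl i, Sum.inr q =>
    exact (inferInstanceAs (Decidable ((i.val = 0 ∧ q.val ≠ 6) ∨ (i.val = N + 1 ∧
      (q.val = 0 ∨ q.val = 1 ∨ q.val = 7 ∨ q.val = 9)) ∨
    (0 < i.val ∧ i.val < N + 1 ∧ (q.val < 2 ∨ (7 ≤ q.val ∧ i.val % 2 = 0))))))
  | Sum.inr q, Sum.inl i =>
    exact (inferInstanceAs (Decidable ((i.val = 0 ∧ q.val ≠ 6) ∨ (i.val = N + 1 ∧
      (q.val = 0 ∨ q.val = 1 ∨ q.val = 7 ∨ q.val = 9)) ∨
    (0 < i.val ∧ i.val < N + 1 ∧ (q.val < 2 ∨ (7 ≤ q.val ∧ i.val % 2 = 0))))))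
  | Sum.inr q, Sum.inr r => exact (inferInstanceAs (Decidable (adjQ q r = true)))

theorem all_none {L : Vx 0 → Option Bool}
    (hK : ∀ g h, L g = some true → g ≠ h → L h ≠ some false → G0.Adj g h)
    (hI : ∀ g h, L g = some false → L h ≠ some true → ¬ G0.Adj g h) (g : Vx 0) : L g = none := by
  -- the 4-cycle: `c = inl 1`, `7`, `8`, `9`
  have hc : L (Sum.inl 1) = none := cycle_none hK hI (x := Sum.inr 7) (y := Sum.inr 8)
    (z := Sum.inr 9) (by decide +kernel) (by decide +kernel) (by decide +kernel)
    (by decide +kernel) (by decide +kernel) (by decide +kernel) (by decide +kernel)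
    (by decide +kernel)
  have h7 : L (Sum.inr 7) = none := cycle_none hK hI (x := Sum.inr 8) (y := Sum.inr 9)
    (z := Sum.inl 1) (by decide +kernel) (by decide +kernel) (by decide +kernel)
    (by decide +kernel) (by decide +kernel) (by decide +kernel) (by decide +kernel)
    (by decide +kernel)
  have h8 : L (Sum.inr 8) = none := cycle_none hK hI (x := Sum.inr 9) (y := Sum.inl 1)
    (z := Sum.inr 7) (by decide +kernel) (by decide +kernel) (by decide +kernel)
    (by decide +kernel) (by decide +kernel) (by decide +kernel) (by decide +kernel)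
    (by decide +kernel)
  have h9 : L (Sum.inr 9) = none := cycle_none hK hI (x := Sum.inl 1) (y := Sum.inr 7)
    (z := Sum.inr 8) (by decide +kernel) (by decide +kernel) (by decide +kernel)
    (by decide +kernel) (by decide +kernel) (by decide +kernel) (by decide +kernel)
    (by decide +kernel)
  have hx : L (Sum.inl 0) = none := none_of hK hI (h := Sum.inr 7) (h' := Sum.inl 1)
    (by decide +kernel) h7 (by decide +kernel) (by decide +kernel) hc
  have h2 : L (Sum.inr 2) = none := none_of hK hI (h := Sum.inl 0) (h' := Sum.inl 1)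
    (by decide +kernel) hx (by decide +kernel) (by decide +kernel) hc
  have h3 : L (Sum.inr 3) = none := none_of hK hI (h := Sum.inl 0) (h' := Sum.inl 1)
    (by decide +kernel) hx (by decide +kernel) (by decide +kernel) hc
  have h4 : L (Sum.inr 4) = none := none_of hK hI (h := Sum.inl 0) (h' := Sum.inl 1)
    (by decide +kernel) hx (by decide +kernel) (by decide +kernel) hc
  have h5 : L (Sum.inr 5) = none := none_of hK hI (h := Sum.inl 0) (h' := Sum.inl 1)
    (by decide +kernel) hx (by decide +kernel) (by decide +kernel) hc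
  have h0 : L (Sum.inr 0) = none := none_of hK hI (h := Sum.inl 1) (h' := Sum.inr 4)
    (by decide +kernel) hc (by decide +kernel) (by decide +kernel) h4
  have h1 : L (Sum.inr 1) = none := none_of hK hI (h := Sum.inl 1) (h' := Sum.inr 2)
    (by decide +kernel) hc (by decide +kernel) (by decide +kernel) h2
  have h6 : L (Sum.inr 6) = none := none_of hK hI (h := Sum.inr 0) (h' := Sum.inl 1)
    (by decide +kernel) h0 (by decide +kernel) (by decide +kernel) hc
  rcases g with i | q
  · fin_cases i
    · exact hx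
    · exact hc
  · fin_cases q
    · exact h0
    · exact h1
    · exact h2
    · exact h3
    · exact h4
    · exact h5
    · exact h6
    · exact h7
    · exact h8
    · exact h9

/-- Every vertex of `HH 0` has two neighbours and two non-neighbours. -/
theorem two_two : ∀ g : Vx 0, (∃ h h' : Vx 0, h ≠ h' ∧ G0.Adj g h ∧ G0.Adj g h') ∧
    (∃ h h' : Vx 0, h ≠ h' ∧ g ≠ h ∧ g ≠ h' ∧ ¬ G0.Adj g h ∧ ¬ G0.Adj g h') := by
  decide +kernel

/-- Deleting a vertex of the path part destroys membership in `P(HH 0)`. -/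
theorem not_PP {N : ℕ} (hN : N % 2 = 0) (p : Fin (N + 2)) (hp1 : 1 ≤ p.val) (hp2 : p.val ≤ N) :
    ¬ PP G0 ((HH N).induce {v | v ≠ Sum.inl p}) := by
  rintro ⟨W, hW, ⟨φ⟩⟩
  have hbadA : ∀ t, t ≤ N → ∀ u w : {v : Vx N | v ≠ Sum.inl p},
      Bad (fun v => lb N t v.1) ((HH N).induce {v | v ≠ Sum.inl p}) u w →
      ∃ i j : Fin (N + 2), u.1 = Sum.inl i ∧ w.1 = Sum.inl j ∧ i.val = t ∧ j.val = t + 1 := by
    intro t ht u w h
    apply bad_only hN ht
    rcases h with ⟨h1, h2, h3, h4⟩ | ⟨h1, h2, h3⟩
    · exact Or.inl ⟨h1, fun e => h2 (Subtype.ext e), h3, h4⟩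
    · exact Or.inr ⟨h1, h2, h3⟩
  have hdefm : defect (fun v : {v : Vx N | v ≠ Sum.inl p} => lb N p.val v.1) W ≤ 0 := by
    rw [defect_congr _ hW]
    apply defect_le_zero
    intro u w hb
    obtain ⟨i, j, h1, -, h3, -⟩ := hbadA p.val hp2 u w hb
    apply u.2
    rw [h1, Fin.ext h3]
  have hdef1 : ∀ t, t ≤ N →
      defect (fun v : {v : Vx N | v ≠ Sum.inl p} => lb N t v.1) W ≤ 1 := by
    intro t ht
    rw [defect_congr _ hW]
    apply defect_le_one (a := fun u => ∃ i : Fin (N + 2), u.1 = Sum.inl i ∧ i.val = t)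
      (b := fun u => ∃ i : Fin (N + 2), u.1 = Sum.inl i ∧ i.val = t + 1)
    · rintro u u' ⟨i, h1, h2⟩ ⟨i', h1', h2'⟩
      apply Subtype.ext
      rw [h1, h1', Fin.ext (h2.trans h2'.symm)]
    · rintro u u' ⟨i, h1, h2⟩ ⟨i', h1', h2'⟩
      apply Subtype.ext
      rw [h1, h1', Fin.ext (h2.trans h2'.symm)]
    · intro u w hb
      obtain ⟨i, j, h1, h2, h3, h4⟩ := hbadA t ht u w hb
      exact ⟨⟨i, h1, h3⟩, ⟨j, h2, h4⟩⟩
  have hnone : ∀ g, lb N p.val (φ g).1 = none := by
    apply all_none (L := fun g => lb N p.val (φ g).1)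
    · intro g h h1 h2 h3
      by_contra hna
      exact defect_zero hdefm (φ g) (φ h)
        (Or.inl ⟨h1, φ.injective.ne h2, h3, fun hadj => hna (φ.map_adj_iff.1 hadj)⟩)
    · intro g h h1 h2 h3
      exact defect_zero hdefm (φ g) (φ h) (Or.inr ⟨h1, h2, φ.map_adj_iff.2 h3⟩)
  have hind : ∀ n, ∀ i : Fin (N + 2), i.val = n → p.val < i.val → i.val ≤ N →
      ∀ g, (φ g).1 ≠ Sum.inl i := by
    intro n
    induction n using Nat.strong_induction_on with
    | _ n ih =>
      intro i hin hpi hiN g hg
      have hlab : ∀ h, g ≠ h → lb N i.val (φ h).1 = none := by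
        intro h hgh
        have hn := hnone h
        have hne : (φ h).1 ≠ (φ g).1 := fun e => hgh (φ.injective (Subtype.ext e.symm))
        rcases hφ : (φ h).1 with j | q
        · rw [hφ] at hn hne
          rw [hg] at hne
          have hji : j.val ≠ i.val := fun e => hne (by rw [Fin.ext e])
          have h1 : p.val < j.val := by
            by_contra hc
            have : lb N p.val (Sum.inl j : Vx N) ≠ none := by
              unfold lb
              simp only [if_pos (not_lt.1 hc)]
              simp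
            exact this hn
          have h2 : i.val < j.val := by
            by_contra hc
            exact ih j.val (by omega) j rfl h1 (by omega) h hφ
          unfold lb
          simp only [if_neg (not_le.2 h2)]
        · rw [hφ] at hn
          exact hn
      obtain ⟨⟨h, h', hne, ha, ha'⟩, ⟨k, k', kne, hgk, hgk', hb, hb'⟩⟩ := two_two g
      rcases Nat.mod_two_eq_zero_or_one i.val with hpar | hpar
      · have hl : lb N i.val (φ g).1 = some true := by
          rw [hg, lb_inl_true]
          exact ⟨le_rfl, hpar⟩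
        apply defect_one (hdef1 i.val hiN) (u := φ g) (w := φ k) (w' := φ k')
          (φ.injective.ne kne)
        · exact Or.inl ⟨hl, φ.injective.ne hgk, by simp [hlab k hgk],
            fun hadj => hb (φ.map_adj_iff.1 hadj)⟩
        · exact Or.inl ⟨hl, φ.injective.ne hgk', by simp [hlab k' hgk'],
            fun hadj => hb' (φ.map_adj_iff.1 hadj)⟩
      · have hl : lb N i.val (φ g).1 = some false := by
          rw [hg, lb_inl_false]
          exact ⟨le_rfl, hpar⟩
        apply defect_one (hdef1 i.val hiN) (u := φ g) (w := φ h) (w' := φ h')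
          (φ.injective.ne hne)
        · exact Or.inr ⟨hl, by simp [hlab h ha.ne], φ.map_adj_iff.2 ha⟩
        · exact Or.inr ⟨hl, by simp [hlab h' ha'.ne], φ.map_adj_iff.2 ha'⟩
  -- only four vertices are left
  let code : Vx N → ℕ
    | Sum.inl _ => 0
    | Sum.inr q => q.val - 6
  have hleft : ∀ g j, (φ g).1 = Sum.inl j → j.val = N + 1 := by
    intro g j hg
    have hn := hnone g
    rw [hg] at hn
    have h1 : p.val < j.val := by
      by_contra hc
      have : lb N p.val (Sum.inl j : Vx N) ≠ none := by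
        unfold lb
        simp only [if_pos (not_lt.1 hc)]
        simp
      exact this hn
    have hj := j.isLt
    by_contra hc
    exact hind j.val j rfl h1 (by omega) g hg
  have hright : ∀ g q, (φ g).1 = Sum.inr q → 7 ≤ q.val := by
    intro g q hg
    have hn := hnone g
    rw [hg] at hn
    by_contra hc
    rcases Nat.lt_or_ge q.val 2 with h2 | h2
    · rw [lb_inr_true.2 h2] at hn
      exact absurd hn (by simp)
    · rw [lb_inr_false.2 ⟨h2, by omega⟩] at hn
      exact absurd hn (by simp)
  have hcode : ∀ g, code (φ g).1 < 4 := by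
    intro g
    rcases hg : (φ g).1 with j | q
    · change 0 < 4
      omega
    · change q.val - 6 < 4
      have := q.isLt
      omega
  have hinj : Function.Injective (fun g => (⟨code (φ g).1, hcode g⟩ : Fin 4)) := by
    intro g g' h
    have h0 : code (φ g).1 = code (φ g').1 := congrArg Fin.val h
    apply φ.injective
    apply Subtype.ext
    rcases hg : (φ g).1 with j | q <;> rcases hg' : (φ g').1 with j' | q'
    · have h1 := hleft g j hg
      have h2 := hleft g' j' hg'
      rw [Fin.ext (h1.trans h2.symm)]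
    · exfalso
      rw [hg, hg'] at h0
      have h1 := hright g' q' hg'
      change 0 = q'.val - 6 at h0
      omega
    · exfalso
      rw [hg, hg'] at h0
      have h1 := hright g q hg
      change q.val - 6 = 0 at h0
      omega
    · rw [hg, hg'] at h0
      have h1 := hright g q hg
      have h2 := hright g' q' hg'
      change q.val - 6 = q'.val - 6 at h0
      have : q = q' := Fin.ext (by omega)
      rw [this]
  have hcard := Fintype.card_le_of_injective _ hinj
  rw [Fintype.card_sum, Fintype.card_fin, Fintype.card_fin, Fintype.card_fin] at hcard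
  omega

theorem large {N : ℕ} (hN : N % 2 = 0) {γ : Type} [Fintype γ] {H₀ : SimpleGraph γ}
    (ι : H₀ ↪g HH N) (h : PP G0 H₀) : N ≤ Fintype.card γ := by
  have hmem : ∀ k : Fin N, ∃ c, ι c = Sum.inl ⟨k.val + 1, by omega⟩ := by
    intro k
    by_contra hc
    have hc : ∀ c, ι c ≠ Sum.inl ⟨k.val + 1, by omega⟩ := fun c e => hc ⟨c, e⟩
    apply not_PP hN ⟨k.val + 1, by omega⟩ (by simp only; omega) (by simp only; omega)
    refine PP_mono (H₀ := H₀) ⟨⟨fun c => ⟨ι c, hc c⟩, ?_⟩, ?_⟩ h
    · intro a b hab
      exact ι.injective (congrArg Subtype.val hab)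
    · intro a b
      exact ι.map_adj_iff
  choose f hf using hmem
  have hinj : Function.Injective f := by
    intro a b hab
    have h1 := hf a
    rw [hab, hf b] at h1
    have h2 := congrArg Fin.val (Sum.inl.inj h1)
    simp only at h2
    exact Fin.ext (by omega)
  have := Fintype.card_le_of_injective f hinj
  rwa [Fintype.card_fin] at this

/-! ### Transfer to `Gr` -/

/-- The graph on `{0, …, n-1}` isomorphic to a given finite graph. -/
noncomputable def toGr {α : Type} [Fintype α] (X : SimpleGraph α) : Gr :=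
  ⟨Fintype.card α, X.comap (Fintype.equivFin α).symm⟩

theorem toGr_iso {α : Type} [Fintype α] (X : SimpleGraph α) : Nonempty ((toGr X).2 ≃g X) :=
  ⟨SimpleGraph.Iso.comap (Fintype.equivFin α).symm X⟩

theorem PP_iso_left {α α' β : Type} [Fintype α] [Fintype α'] [Fintype β] {G : SimpleGraph α}
    {G' : SimpleGraph α'} {H : SimpleGraph β} (e : G' ≃g G) (h : PP G H) : PP G' H := by
  obtain ⟨H', h1, ⟨φ⟩⟩ := h
  exact ⟨H', h1, ⟨e.toEmbedding.trans φ⟩⟩

/-- The family `D(G₀)` has members of arbitrarily large order. -/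
theorem infinite_family : ∃ F : ℕ → Gr, (∀ i, InD (toGr G0) (F i)) ∧
    ∀ i j, i < j → (F i).1 < (F j).1 := by
  apply infinite_of
  intro N
  obtain ⟨e0⟩ := toGr_iso G0
  obtain ⟨e⟩ := toGr_iso (HH (2 * N + 2))
  refine ⟨toGr (HH (2 * N + 2)), ?_, ?_⟩
  · rw [inP_iff]
    apply PP_iso_left e0
    exact PP_mono e.symm.toEmbedding (PP_HH (2 * N + 2) (by omega) (by omega))
  · rintro H₀ ⟨ι⟩ hP
    rw [inP_iff] at hP
    have h1 : PP G0 H₀.2 := PP_iso_left e0.symm hP
    have h2 := large (N := 2 * N + 2) (by omega) (ι.trans e.toEmbedding) h1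
    rw [Fintype.card_fin] at h2
    omega

end Pool.Agent.Q267.DegForcing
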