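import Mathlib
import Pool.Agent.Q267.CopyAut

/-!
The numbers of subtrees with five vertices of an acyclic graph, in terms of degrees.
-/

namespace Pool.Agent.Q267.TreeCounts

open SimpleGraph Finset
open Pool.Agent.Q267.CopyAut

variable {V : Type*}

theorem no_tri {G : SimpleGraph V} (hG : G.IsAcyclic) {a b c : V} (hab : G.Adj a b)
    (hbc : G.Adj b c) (hac : G.Adj a c) : False := by
  have h := (hG.subsingleton_path a c).elim
    ⟨Walk.cons hab (Walk.cons hbc Walk.nil), by
      simp [hab.ne, hac.ne, hbc.ne]⟩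
    ⟨Walk.cons hac Walk.nil, by simp [hac.ne]⟩
  have h2 := congrArg (fun p : G.Path a c => (p : G.Walk a c).length) h
  simp at h2

theorem no_quad {G : SimpleGraph V} (hG : G.IsAcyclic) {a b c d : V} (hab : G.Adj a b)
    (hbc : G.Adj b c) (hcd : G.Adj c d) (hda : G.Adj d a) (hac : a ≠ c) (hbd : b ≠ d) : False := by
  have h := (hG.subsingleton_path a c).elim
    ⟨Walk.cons hab (Walk.cons hbc Walk.nil), by
      simp [hab.ne, hac, hbc.ne]⟩
    ⟨Walk.cons hda.symm (Walk.cons hcd.symm Walk.nil), by simp [hda.ne', hac, hcd.ne']⟩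
  have h2 := congrArg (fun p : G.Path a c => (p : G.Walk a c).support) h
  simp at h2
  exact hbd h2

theorem inj5 {V : Type*} {x0 x1 x2 x3 x4 : V} (h01 : x0 ≠ x1) (h02 : x0 ≠ x2) (h03 : x0 ≠ x3)
    (h04 : x0 ≠ x4) (h12 : x1 ≠ x2) (h13 : x1 ≠ x3) (h14 : x1 ≠ x4) (h23 : x2 ≠ x3)
    (h24 : x2 ≠ x4) (h34 : x3 ≠ x4) : Function.Injective ![x0, x1, x2, x3, x4] := by
  intro i j
  fin_cases i <;> fin_cases j <;> simp [*, Ne.symm, eq_comm]

theorem hom_path {V : Type*} {G : SimpleGraph V} {x0 x1 x2 x3 x4 : V} (h01 : G.Adj x0 x1)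
    (h12 : G.Adj x1 x2) (h23 : G.Adj x2 x3) (h34 : G.Adj x3 x4) :
    ∀ {i j}, pathTree.Adj i j → G.Adj (![x0, x1, x2, x3, x4] i) (![x0, x1, x2, x3, x4] j) := by
  intro i j h
  rw [pathTree, pathGraph_adj] at h
  fin_cases i <;> fin_cases j <;> simp_all [G.adj_comm]

theorem hom_y {V : Type*} {G : SimpleGraph V} {x0 x1 x2 x3 x4 : V} (h01 : G.Adj x0 x1)
    (h12 : G.Adj x0 x2) (h23 : G.Adj x0 x3) (h34 : G.Adj x3 x4) :
    ∀ {i j}, yTree.Adj i j → G.Adj (![x0, x1, x2, x3, x4] i) (![x0, x1, x2, x3, x4] j) := by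
  intro i j h
  rcases h with h | h | h | h | h | h | h | h
  all_goals
    obtain ⟨rfl, rfl⟩ := h
    first
      | exact h01
      | exact h12
      | exact h23
      | exact h34
      | exact h01.symm
      | exact h12.symm
      | exact h23.symm
      | exact h34.symm
/-- labelled stars -/
def starEquiv (G : SimpleGraph V) :
    Copy starTree G ≃ Σ v : V, (Fin 4 ↪ G.neighborSet v) where
  toFun f := ⟨f 0, ⟨fun i => ⟨f i.succ, f.toHom.map_adj
      (show starTree.Adj 0 i.succ from ⟨(Fin.succ_ne_zero i).symm, Or.inl rfl⟩)⟩, by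
    intro i j h
    have h1 : f i.succ = f j.succ := congrArg Subtype.val h
    exact Fin.succ_injective _ (f.injective h1)⟩⟩
  invFun s := ⟨⟨Fin.cases s.1 (fun i => (s.2 i : V)), by
      intro i j hij
      obtain ⟨hne, h0⟩ := hij
      rcases h0 with h0 | h0
      · subst h0
        obtain ⟨k, rfl⟩ := Fin.exists_succ_eq.mpr hne.symm
        exact (s.2 k).2
      · subst h0
        obtain ⟨k, rfl⟩ := Fin.exists_succ_eq.mpr hne
        exact (G.symm.symm _ _ (s.2 k).2)⟩, by
      intro i j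
      refine Fin.cases ?_ (fun i => ?_) i <;> refine Fin.cases ?_ (fun j => ?_) j
      · intro _; rfl
      · intro h
        exact absurd h (s.2 j).2.ne
      · intro h
        exact absurd h (s.2 i).2.ne'
      · intro h
        have : s.2 i = s.2 j := Subtype.ext h
        rw [s.2.injective this]⟩
  left_inv f := by
    ext a
    exact Fin.cases rfl (fun i => rfl) a
  right_inv s := rfl

/-- labelled copies of the path -/
def pathEquiv {G : SimpleGraph V} (hG : G.IsAcyclic) :
    Copy pathTree G ≃ Σ v : V, Σ a : G.neighborSet v, Σ b : {b : G.neighborSet v // b ≠ a},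
      ({x : G.neighborSet (a : V) // (x : V) ≠ v} × {y : G.neighborSet (b.1 : V) // (y : V) ≠ v}) where
  toFun f := ⟨f 2, ⟨f 1, (f.toHom.map_adj (show pathTree.Adj 1 2 by decide)).symm⟩,
    ⟨⟨f 3, f.toHom.map_adj (show pathTree.Adj 2 3 by decide)⟩, fun h => by
      have h1 : f 3 = f 1 := congrArg Subtype.val h
      exact absurd (f.injective h1) (by decide)⟩,
    ⟨⟨f 0, (f.toHom.map_adj (show pathTree.Adj 0 1 by decide)).symm⟩, fun h => by
      have h1 : f 0 = f 2 := h
      exact absurd (f.injective h1) (by decide)⟩,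
    ⟨⟨f 4, f.toHom.map_adj (show pathTree.Adj 3 4 by decide)⟩, fun h => by
      have h1 : f 4 = f 2 := h
      exact absurd (f.injective h1) (by decide)⟩⟩
  invFun s := ⟨⟨![(s.2.2.2.1.1 : V), (s.2.1 : V), s.1, (s.2.2.1.1 : V), (s.2.2.2.2.1 : V)], by
      obtain ⟨v, ⟨a, ha⟩, ⟨⟨b, hb⟩, hba⟩, ⟨⟨x, hx⟩, hxv⟩, ⟨⟨y, hy⟩, hyv⟩⟩ := s
      simp only [mem_neighborSet] at ha hb hx hy
      exact hom_path hx.symm ha.symm hb hy⟩, by
      obtain ⟨v, ⟨a, ha⟩, ⟨⟨b, hb⟩, hba⟩, ⟨⟨x, hx⟩, hxv⟩, ⟨⟨y, hy⟩, hyv⟩⟩ := s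
      simp only [mem_neighborSet] at ha hb hx hy
      have hba' : b ≠ a := fun h => hba (Subtype.ext h)
      have hxv' : x ≠ v := hxv
      have hyv' : y ≠ v := hyv
      have hxb : x ≠ b := fun h => no_tri hG ha (h ▸ hx) hb
      have hya : y ≠ a := fun h => no_tri hG hb (h ▸ hy) ha
      have hxy : x ≠ y := fun h => no_quad hG ha (h ▸ hx) hy.symm hb.symm hyv'.symm hba'.symm
      exact inj5 hx.ne' hxv' hxb hxy ha.ne' hba'.symm hya.symm hb.ne hyv'.symm hy.ne⟩
  left_inv f := by
    ext i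
    fin_cases i <;> rfl
  right_inv s := rfl

/-- labelled copies of the tree with edges `01, 02, 03, 34` -/
def yEquiv {G : SimpleGraph V} (hG : G.IsAcyclic) :
    Copy yTree G ≃ Σ v : V, Σ c : G.neighborSet v,
      ((Fin 2 ↪ {a : G.neighborSet v // a ≠ c}) × {w : G.neighborSet (c : V) // (w : V) ≠ v}) where
  toFun f := ⟨f 0, ⟨f 3, f.toHom.map_adj (show yTree.Adj 0 3 by decide)⟩,
    ⟨![⟨⟨f 1, f.toHom.map_adj (show yTree.Adj 0 1 by decide)⟩, fun h => by
        have h1 : f 1 = f 3 := congrArg Subtype.val h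
        exact absurd (f.injective h1) (by decide)⟩,
      ⟨⟨f 2, f.toHom.map_adj (show yTree.Adj 0 2 by decide)⟩, fun h => by
        have h1 : f 2 = f 3 := congrArg Subtype.val h
        exact absurd (f.injective h1) (by decide)⟩], by
      intro i j hij
      fin_cases i <;> fin_cases j
      · rfl
      · have h1 : f 1 = f 2 := congrArg (fun z => (z.1.1 : V)) hij
        exact absurd (f.injective h1) (by decide)
      · have h1 : f 2 = f 1 := congrArg (fun z => (z.1.1 : V)) hij
        exact absurd (f.injective h1) (by decide)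
      · rfl⟩,
    ⟨⟨f 4, f.toHom.map_adj (show yTree.Adj 3 4 by decide)⟩, fun h => by
      have h1 : f 4 = f 0 := h
      exact absurd (f.injective h1) (by decide)⟩⟩
  invFun s := ⟨⟨![s.1, ((s.2.2.1 0).1 : V), ((s.2.2.1 1).1 : V), (s.2.1 : V), (s.2.2.2.1 : V)], by
      obtain ⟨v, ⟨c, hc⟩, g, ⟨⟨w, hw⟩, hwv⟩⟩ := s
      simp only [mem_neighborSet] at hc hw
      exact hom_y (g 0).1.2 (g 1).1.2 hc hw⟩, by
      obtain ⟨v, ⟨c, hc⟩, g, ⟨⟨w, hw⟩, hwv⟩⟩ := s
      simp only [mem_neighborSet] at hc hw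
      have ha : G.Adj v (g 0).1.1 := (g 0).1.2
      have hb : G.Adj v (g 1).1.1 := (g 1).1.2
      have hac : (g 0).1.1 ≠ c := fun h => (g 0).2 (Subtype.ext h)
      have hbc : (g 1).1.1 ≠ c := fun h => (g 1).2 (Subtype.ext h)
      have hab : (g 0).1.1 ≠ (g 1).1.1 := fun h => by
        have h1 : g 0 = g 1 := Subtype.ext (Subtype.ext h)
        exact absurd (g.injective h1) (by decide)
      have hwv' : w ≠ v := hwv
      have hwa : w ≠ (g 0).1.1 := fun h => no_tri hG hc hw (h ▸ ha)
      have hwb : w ≠ (g 1).1.1 := fun h => no_tri hG hc hw (h ▸ hb)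
      exact inj5 ha.ne hb.ne hc.ne hwv'.symm hab hac hwa.symm hbc hwb.symm hw.ne⟩
  left_inv f := by
    ext i
    fin_cases i <;> rfl
  right_inv s := by
    obtain ⟨v, ⟨c, hc⟩, g, ⟨⟨w, hw⟩, hwv⟩⟩ := s
    refine Sigma.ext rfl (heq_of_eq ?_)
    refine Sigma.ext rfl (heq_of_eq ?_)
    refine Prod.ext ?_ rfl
    ext i
    fin_cases i <;> rfl

variable [Fintype V]

theorem labelled_nat {W : Type*} [Fintype W] (G : SimpleGraph V) (H : SimpleGraph W) :
    G.labelledCopyCount H = Nat.card (Copy H G) := by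
  classical
  exact Nat.card_eq_fintype_card.symm

theorem labelled_star (G : SimpleGraph V) [DecidableRel G.Adj] :
    G.labelledCopyCount starTree = ∑ v, (G.degree v).descFactorial 4 := by
  rw [labelled_nat, Nat.card_congr (starEquiv G), Nat.card_sigma]
  apply Finset.sum_congr rfl
  intro v _
  rw [Nat.card_eq_fintype_card, Fintype.card_embedding_eq, Fintype.card_fin,
    G.card_neighborSet_eq_degree]

theorem star_count (G : SimpleGraph V) [DecidableRel G.Adj] :
    G.copyCount starTree = ∑ v, (G.degree v).choose 4 := by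
  have h := labelled_eq G starTree
  rw [aut_star, labelled_star] at h
  have h2 : ∑ v, (G.degree v).descFactorial 4 = 24 * ∑ v, (G.degree v).choose 4 := by
    rw [Finset.mul_sum]
    apply Finset.sum_congr rfl
    intro v _
    rw [Nat.descFactorial_eq_factorial_mul_choose]
    rfl
  omega

theorem card_nbr_ne (G : SimpleGraph V) [DecidableRel G.Adj] (v w : V) (h : G.Adj v w) :
    Nat.card {x : G.neighborSet v // (x : V) ≠ w} = G.degree v - 1 := by
  classical
  rw [Nat.card_eq_fintype_card]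
  have h1 : Fintype.card {x : G.neighborSet v // (x : V) ≠ w} =
      Fintype.card {x : G.neighborSet v // ¬ (x = ⟨w, h⟩)} := by
    apply Fintype.card_congr
    exact Equiv.subtypeEquivRight (fun x => by
      rw [Subtype.ext_iff])
  rw [h1, Fintype.card_subtype_compl, G.card_neighborSet_eq_degree, Fintype.card_subtype_eq]

theorem card_nbr_ne' (G : SimpleGraph V) [DecidableRel G.Adj] (v : V) (w : G.neighborSet v) :
    Nat.card {x : G.neighborSet v // x ≠ w} = G.degree v - 1 := by
  classical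
  rw [Nat.card_eq_fintype_card]
  rw [Fintype.card_subtype_compl, G.card_neighborSet_eq_degree, Fintype.card_subtype_eq]

theorem sum_nbr (G : SimpleGraph V) [DecidableRel G.Adj] (v : V) (F : V → ℕ) :
    ∑ c : G.neighborSet v, F c = ∑ c ∈ G.neighborFinset v, F c := by
  rw [← Finset.sum_coe_sort (G.neighborFinset v)]
  exact Fintype.sum_equiv (Equiv.subtypeEquivRight (fun x => by simp)) _ _ (fun c => rfl)

theorem labelled_y (G : SimpleGraph V) [DecidableRel G.Adj] (hG : G.IsAcyclic) :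
    G.labelledCopyCount yTree = ∑ v, ∑ c ∈ G.neighborFinset v,
      (G.degree v - 1).descFactorial 2 * (G.degree c - 1) := by
  classical
  rw [labelled_nat, Nat.card_congr (yEquiv hG), Nat.card_sigma]
  apply Finset.sum_congr rfl
  intro v _
  rw [Nat.card_sigma]
  have h1 : ∀ c : G.neighborSet v,
      Nat.card ((Fin 2 ↪ {a : G.neighborSet v // a ≠ c}) × {w : G.neighborSet (c : V) // (w : V) ≠ v})
        = (G.degree v - 1).descFactorial 2 * (G.degree (c : V) - 1) := by
    intro c
    rw [Nat.card_prod, card_nbr_ne G c v (G.symm.symm _ _ c.2)]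
    congr 1
    rw [Nat.card_eq_fintype_card, Fintype.card_embedding_eq, Fintype.card_fin,
      ← Nat.card_eq_fintype_card, card_nbr_ne']
  rw [Finset.sum_congr rfl (fun c _ => h1 c)]
  exact sum_nbr G v (fun c => (G.degree v - 1).descFactorial 2 * (G.degree c - 1))

theorem sum_nbr_ne (G : SimpleGraph V) [DecidableRel G.Adj] [DecidableEq V] (v : V)
    (a : G.neighborSet v) [Fintype {b : G.neighborSet v // b ≠ a}] (F : V → ℕ) :
    ∑ b : {b : G.neighborSet v // b ≠ a}, F (b.1 : V) =
      ∑ b ∈ (G.neighborFinset v).erase a, F b := by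
  rw [← Finset.sum_coe_sort ((G.neighborFinset v).erase a)]
  exact Fintype.sum_equiv
    { toFun := fun b => ⟨b.1.1, Finset.mem_erase.mpr ⟨fun h => b.2 (Subtype.ext h),
        (G.mem_neighborFinset v b.1.1).mpr b.1.2⟩⟩
      invFun := fun b => ⟨⟨b.1, (G.mem_neighborFinset v b.1).mp (Finset.mem_erase.mp b.2).2⟩,
        fun h =>
        (Finset.mem_erase.mp b.2).1 (congrArg Subtype.val h)⟩
      left_inv := fun b => rfl
      right_inv := fun b => rfl } _ _ (fun c => rfl)

theorem path_inner (G : SimpleGraph V) [DecidableRel G.Adj] [DecidableEq V] (v : V)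
    (a : G.neighborSet v) :
    Nat.card (Σ b : {b : G.neighborSet v // b ≠ a},
      ({x : G.neighborSet (a : V) // (x : V) ≠ v} × {y : G.neighborSet (b.1 : V) // (y : V) ≠ v}))
        = ∑ b ∈ (G.neighborFinset v).erase a, (G.degree (a : V) - 1) * (G.degree b - 1) := by
  rw [Nat.card_sigma]
  have h2 : ∀ b : {b : G.neighborSet v // b ≠ a},
      Nat.card ({x : G.neighborSet (a : V) // (x : V) ≠ v} ×
        {y : G.neighborSet (b.1 : V) // (y : V) ≠ v})
        = (G.degree (a : V) - 1) * (G.degree (b.1 : V) - 1) := by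
    intro b
    rw [Nat.card_prod, card_nbr_ne G a v (G.symm.symm _ _ a.2),
      card_nbr_ne G b.1 v (G.symm.symm _ _ b.1.2)]
  rw [Finset.sum_congr rfl (fun b _ => h2 b)]
  exact sum_nbr_ne G v a (fun b => (G.degree (a : V) - 1) * (G.degree b - 1))

theorem labelled_path (G : SimpleGraph V) [DecidableRel G.Adj] [DecidableEq V]
    (hG : G.IsAcyclic) :
    G.labelledCopyCount pathTree = ∑ v, ∑ a ∈ G.neighborFinset v,
      ∑ b ∈ (G.neighborFinset v).erase a, (G.degree a - 1) * (G.degree b - 1) := by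
  rw [labelled_nat, Nat.card_congr (pathEquiv hG), Nat.card_sigma]
  apply Finset.sum_congr rfl
  intro v _
  rw [Nat.card_sigma]
  rw [Finset.sum_congr rfl (fun a _ => path_inner G v a)]
  exact sum_nbr G v (fun a => ∑ b ∈ (G.neighborFinset v).erase a,
    (G.degree (a : V) - 1) * (G.degree b - 1))

/-- the number of copies of the Y-tree -/
theorem y_count (G : SimpleGraph V) [DecidableRel G.Adj] (hG : G.IsAcyclic) :
    2 * (G.copyCount yTree : ℤ) = ∑ v, ∑ c ∈ G.neighborFinset v,
      ((G.degree v : ℤ) - 1) * ((G.degree v : ℤ) - 2) * ((G.degree c : ℤ) - 1) := by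
  have h := labelled_eq G yTree
  rw [aut_y, labelled_y G hG] at h
  have h' := congrArg (fun n : ℕ => (n : ℤ)) h
  push_cast at h'
  rw [← h']
  apply Finset.sum_congr rfl
  intro v _
  apply Finset.sum_congr rfl
  intro c hc
  rw [mem_neighborFinset] at hc
  have h1 : 1 ≤ G.degree v := by
    rw [Nat.one_le_iff_ne_zero, ← Nat.pos_iff_ne_zero, G.degree_pos_iff_exists_adj]
    exact ⟨c, hc⟩
  have h2 : 1 ≤ G.degree c := by
    rw [Nat.one_le_iff_ne_zero, ← Nat.pos_iff_ne_zero, G.degree_pos_iff_exists_adj]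
    exact ⟨v, hc.symm⟩
  obtain ⟨a, ha⟩ := Nat.exists_eq_add_of_le h1
  obtain ⟨b, hb⟩ := Nat.exists_eq_add_of_le h2
  rw [ha, hb]
  rw [Nat.add_sub_cancel_left, Nat.add_sub_cancel_left]
  push_cast
  have h3 : ((a.descFactorial 2 : ℕ) : ℤ) = (a : ℤ) * ((a : ℤ) - 1) := by
    rcases a with _ | a
    · simp
    · simp [Nat.descFactorial_succ]
      ring
  rw [h3]
  ring

/-- the number of copies of the path -/
theorem path_count (G : SimpleGraph V) [DecidableRel G.Adj] (hG : G.IsAcyclic) :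
    2 * (G.copyCount pathTree : ℤ) = ∑ v, ((∑ a ∈ G.neighborFinset v, ((G.degree a : ℤ) - 1)) ^ 2 -
      ∑ a ∈ G.neighborFinset v, ((G.degree a : ℤ) - 1) ^ 2) := by
  classical
  have h := labelled_eq G pathTree
  rw [aut_path, labelled_path G hG] at h
  have h' := congrArg (fun n : ℕ => (n : ℤ)) h
  push_cast at h'
  rw [← h']
  apply Finset.sum_congr rfl
  intro v _
  have h1 : ∀ a ∈ G.neighborFinset v, ((G.degree a - 1 : ℕ) : ℤ) = (G.degree a : ℤ) - 1 := by
    intro a ha
    rw [mem_neighborFinset] at ha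
    have h2 : 1 ≤ G.degree a := by
      rw [Nat.one_le_iff_ne_zero, ← Nat.pos_iff_ne_zero, G.degree_pos_iff_exists_adj]
      exact ⟨v, ha.symm⟩
    push_cast [Nat.cast_sub h2]
    ring
  rw [sq, Finset.sum_mul_sum, ← Finset.sum_sub_distrib]
  apply Finset.sum_congr rfl
  intro a ha
  rw [← Finset.sum_erase_add _ _ ha]
  rw [Finset.sum_congr rfl (fun b hb => by
    rw [h1 a ha, h1 b (Finset.mem_of_mem_erase hb)])]
  ring

end Pool.Agent.Q267.TreeCounts
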