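import Mathlib
import Pool.Agent.Q267.TreeCounts

/-!
A family of caterpillars: the internal vertices form a path, with degrees
`2, 9, 9, 2, 2, 9, 9, 2, ...` (except at the two ends).
-/

namespace Pool.Agent.Q267.TreeFamily

open SimpleGraph Finset
open Pool.Agent.Q267.CopyAut Pool.Agent.Q267.TreeCounts

theorem tree_of_parent {V : Type*} [Fintype V] (G : SimpleGraph V) (root : V) (h : V → ℕ)
    (P : V → V → Prop) (hadj : ∀ u v, G.Adj u v ↔ P u v ∨ P v u)
    (hroot : ∀ v, ¬ P root v)
    (hun : ∀ u v w, P u v → P u w → v = w) (hex : ∀ u, u ≠ root → ∃ v, P u v)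
    (hlt : ∀ u v, P u v → h v < h u) : G.IsTree := by
  classical
  have hreach : ∀ n : ℕ, ∀ u, h u = n → G.Reachable root u := by
    intro n
    induction n using Nat.strong_induction_on with
    | _ n ih =>
      intro u hu
      by_cases hr : u = root
      · rw [hr]
      · obtain ⟨v, hv⟩ := hex u hr
        have h1 := ih (h v) (hu ▸ hlt u v hv) v rfl
        exact h1.trans ((hadj v u).mpr (Or.inr hv)).reachable
  have hconn : G.Connected := by
    rw [connected_iff]
    exact ⟨fun u v => (hreach _ u rfl).symm.trans (hreach _ v rfl), ⟨root⟩⟩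
  rw [isTree_iff_connected_and_card]
  refine ⟨hconn, ?_⟩
  have h1 := hconn.card_vert_le_card_edgeSet_add_one
  have h2 : Nat.card G.edgeSet ≤ Nat.card {v : V // v ≠ root} := by
    apply Nat.card_le_card_of_surjective (fun v : {v : V // v ≠ root} =>
      (⟨s(v.1, (hex v.1 v.2).choose), by
        rw [mem_edgeSet, hadj]
        exact Or.inl (hex v.1 v.2).choose_spec⟩ : G.edgeSet))
    rintro ⟨e, he⟩
    induction e using Sym2.ind with
    | _ u v =>
      have he' := he
      rw [mem_edgeSet, hadj] at he'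
      rcases he' with h3 | h3
      · have hu : u ≠ root := fun h4 => hroot v (h4 ▸ h3)
        refine ⟨⟨u, hu⟩, ?_⟩
        apply Subtype.ext
        show s(u, (hex u hu).choose) = s(u, v)
        rw [hun u _ _ (hex u hu).choose_spec h3]
      · have hv : v ≠ root := fun h4 => hroot u (h4 ▸ h3)
        refine ⟨⟨v, hv⟩, ?_⟩
        apply Subtype.ext
        show s(v, (hex v hv).choose) = s(u, v)
        rw [hun v _ _ (hex v hv).choose_spec h3, Sym2.eq_swap]
  have h3 : Nat.card {v : V // v ≠ root} + 1 = Nat.card V := by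
    rw [Nat.card_eq_fintype_card, Nat.card_eq_fintype_card, Fintype.card_subtype_compl,
      Fintype.card_subtype_eq]
    have : 0 < Fintype.card V := Fintype.card_pos_iff.mpr ⟨root⟩
    omega
  omega

/-- the vertices of one block: four spine vertices and `2 * 7` leaves -/
abbrev U : Type := Fin 4 ⊕ (Bool × Fin 7)

/-- `P u v`: the vertex `v` is the parent of the vertex `u` -/
def P {N : ℕ} : Fin N × U → Fin N × U → Prop
  | (i, Sum.inl x), (j, Sum.inl y) =>
      (x = 0 ∧ y = 3 ∧ (i : ℕ) = (j : ℕ) + 1) ∨ (i = j ∧ (x : ℕ) = (y : ℕ) + 1)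
  | (i, Sum.inr (true, _)), (j, Sum.inl y) => i = j ∧ y = 2
  | (i, Sum.inr (false, _)), (j, Sum.inl y) => i = j ∧ y = 1
  | (_, Sum.inl _), (_, Sum.inr _) => False
  | (_, Sum.inr _), (_, Sum.inr _) => False

/-- height -/
def ht {N : ℕ} : Fin N × U → ℕ
  | (i, Sum.inl x) => 4 * i + x
  | (i, Sum.inr _) => 4 * i + 3

theorem P_lt {N : ℕ} (u v : Fin N × U) (h : P u v) : ht v < ht u := by
  obtain ⟨i, x | ⟨b, x⟩⟩ := u <;> obtain ⟨j, y | ⟨b', y⟩⟩ := v
  · rcases h with ⟨rfl, rfl, h⟩ | ⟨rfl, h⟩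
    · simp only [ht]
      have : ((3 : Fin 4) : ℕ) = 3 := rfl
      have h0 : ((0 : Fin 4) : ℕ) = 0 := rfl
      omega
    · simp only [ht]
      omega
  · exact h.elim
  · cases b
    · obtain ⟨rfl, rfl⟩ := h
      simp [ht]
    · obtain ⟨rfl, rfl⟩ := h
      simp [ht]
  · cases b <;> exact h.elim

/-- the tree with `N` blocks -/
def T (N : ℕ) : SimpleGraph (Fin N × U) where
  Adj u v := P u v ∨ P v u
  symm := ⟨fun _ _ h => h.symm⟩
  loopless := ⟨fun u h => by
    rcases h with h | h <;> exact absurd (P_lt u u h) (lt_irrefl _)⟩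

theorem T_tree (k : ℕ) : (T (k + 1)).IsTree := by
  refine tree_of_parent (T (k + 1)) (0, Sum.inl 0) ht P (fun u v => Iff.rfl) ?_ ?_ ?_
    (fun u v h => P_lt u v h)
  · rintro ⟨j, y | ⟨b, y⟩⟩ h
    · rcases h with ⟨-, -, h⟩ | ⟨-, h⟩
      · simp at h
      · simp at h
    · exact h
  · rintro ⟨i, x | ⟨b, x⟩⟩ ⟨j, y | ⟨b', y⟩⟩ ⟨l, z | ⟨b'', z⟩⟩ h1 h2
    · rcases h1 with ⟨rfl, rfl, h1⟩ | ⟨rfl, h1⟩ <;> rcases h2 with ⟨h3, rfl, h2⟩ | ⟨rfl, h2⟩
      · have : j = l := by omega
        rw [this]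
      · simp at h2
      · subst h3
        simp at h1
      · have : y = z := by omega
        rw [this]
    · exact h2.elim
    · exact h1.elim
    · exact h1.elim
    · cases b
      · obtain ⟨rfl, rfl⟩ := h1
        obtain ⟨rfl, rfl⟩ := h2
        rfl
      · obtain ⟨rfl, rfl⟩ := h1
        obtain ⟨rfl, rfl⟩ := h2
        rfl
    · cases b <;> exact h2.elim
    · cases b <;> exact h1.elim
    · cases b <;> exact h1.elim
  · rintro ⟨i, x | ⟨b, x⟩⟩ hne
    · by_cases hx : x = 0
      · subst hx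
        have hi : i ≠ 0 := fun h => hne (by rw [h])
        have hi' : 0 < (i : ℕ) := by
          rcases Nat.eq_zero_or_pos (i : ℕ) with h | h
          · exact absurd (Fin.ext h) hi
          · exact h
        exact ⟨(⟨i - 1, by omega⟩, Sum.inl 3), Or.inl ⟨rfl, rfl, by simp; omega⟩⟩
      · have hx' : 0 < (x : ℕ) := by
          rcases Nat.eq_zero_or_pos (x : ℕ) with h | h
          · exact absurd (Fin.ext h) hx
          · exact h
        exact ⟨(i, Sum.inl ⟨x - 1, by omega⟩), Or.inr ⟨rfl, by simp; omega⟩⟩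
    · cases b
      · exact ⟨(i, Sum.inl 1), rfl, rfl⟩
      · exact ⟨(i, Sum.inl 2), rfl, rfl⟩

open Classical in
theorem sumN {N : ℕ} (v : Fin N × U) (F : Fin N × U → ℤ) [DecidableRel (T N).Adj] :
    ∑ w ∈ (T N).neighborFinset v, F w = ∑ w, if (P v w ∨ P w v) then F w else 0 := by
  rw [← Finset.sum_filter]
  apply Finset.sum_congr _ (fun _ _ => rfl)
  ext w
  simp only [mem_neighborFinset, mem_filter, mem_univ, true_and]
  exact Iff.rfl

open Classical in
theorem expand {N : ℕ} (G : Fin N × U → ℤ) :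
    ∑ w, G w = ∑ j : Fin N, (G (j, Sum.inl 0) + G (j, Sum.inl 1) + G (j, Sum.inl 2) +
      G (j, Sum.inl 3) + (∑ x, G (j, Sum.inr (false, x)) + ∑ x, G (j, Sum.inr (true, x)))) := by
  rw [Fintype.sum_prod_type]
  apply Finset.sum_congr rfl
  intro j _
  rw [Fintype.sum_sum_type, Fin.sum_univ_four, Fintype.sum_prod_type, Fintype.sum_bool]
  ring

section
variable {N : ℕ} (i : Fin N) (F : Fin N × U → ℤ) [DecidableRel (T N).Adj]

theorem nb0 : ∑ w ∈ (T N).neighborFinset (i, Sum.inl 0), F w =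
    (∑ j : Fin N, if (i : ℕ) = (j : ℕ) + 1 then F (j, Sum.inl 3) else 0) + F (i, Sum.inl 1) := by
  classical
  rw [sumN, expand]
  simp [P, Finset.sum_add_distrib]
  ring

theorem nb1 : ∑ w ∈ (T N).neighborFinset (i, Sum.inl 1), F w =
    F (i, Sum.inl 0) + F (i, Sum.inl 2) + ∑ x, F (i, Sum.inr (false, x)) := by
  classical
  rw [sumN, expand]
  simp [P, Finset.sum_add_distrib]

theorem nb2 : ∑ w ∈ (T N).neighborFinset (i, Sum.inl 2), F w =
    F (i, Sum.inl 1) + F (i, Sum.inl 3) + ∑ x, F (i, Sum.inr (true, x)) := by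
  classical
  rw [sumN, expand]
  simp [P, Finset.sum_add_distrib]

theorem nb3 : ∑ w ∈ (T N).neighborFinset (i, Sum.inl 3), F w =
    F (i, Sum.inl 2) + (∑ j : Fin N, if (j : ℕ) = (i : ℕ) + 1 then F (j, Sum.inl 0) else 0) := by
  classical
  rw [sumN, expand]
  simp [P, Finset.sum_add_distrib]
  ring

theorem nbf (x : Fin 7) : ∑ w ∈ (T N).neighborFinset (i, Sum.inr (false, x)), F w =
    F (i, Sum.inl 1) := by
  classical
  rw [sumN, expand]
  simp [P]

theorem nbt (x : Fin 7) : ∑ w ∈ (T N).neighborFinset (i, Sum.inr (true, x)), F w =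
    F (i, Sum.inl 2) := by
  classical
  rw [sumN, expand]
  simp [P]

/-- `1` unless the block is the first one -/
def al {N : ℕ} (i : Fin N) : ℤ := if 0 < (i : ℕ) then 1 else 0

/-- `1` unless the block is the last one -/
def be {N : ℕ} (i : Fin N) : ℤ := if (i : ℕ) + 1 < N then 1 else 0

omit [DecidableRel (T N).Adj] in
theorem sum_prev (g : Fin N → ℤ) (hg : ∀ j : Fin N, (j : ℕ) + 1 < N → g j = 1) :
    (∑ j : Fin N, if (i : ℕ) = (j : ℕ) + 1 then g j else 0) = al i := by
  unfold al
  split_ifs with h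
  · have hi := i.isLt
    rw [Finset.sum_eq_single (⟨i - 1, by omega⟩ : Fin N)]
    · rw [if_pos (by simp; omega)]
      apply hg
      simp
      omega
    · intro j _ hj
      rw [if_neg]
      intro h2
      apply hj
      apply Fin.ext
      simp
      omega
    · intro h2
      exact absurd (mem_univ _) h2
  · apply Finset.sum_eq_zero
    intro j _
    rw [if_neg (by omega)]

omit [DecidableRel (T N).Adj] in
theorem sum_next (g : Fin N → ℤ) (hg : ∀ j : Fin N, 0 < (j : ℕ) → g j = 1) :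
    (∑ j : Fin N, if (j : ℕ) = (i : ℕ) + 1 then g j else 0) = be i := by
  unfold be
  split_ifs with h
  · rw [Finset.sum_eq_single (⟨i + 1, h⟩ : Fin N)]
    · rw [if_pos (by simp)]
      apply hg
      simp
    · intro j _ hj
      rw [if_neg]
      intro h2
      apply hj
      apply Fin.ext
      simp
      omega
    · intro h2
      exact absurd (mem_univ _) h2
  · apply Finset.sum_eq_zero
    intro j _
    have := j.isLt
    rw [if_neg (by omega)]

theorem deg_cast (v : Fin N × U) : ((T N).degree v : ℤ) = ∑ _w ∈ (T N).neighborFinset v, (1 : ℤ) := by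
  rw [← card_neighborFinset_eq_degree]
  simp

theorem dg0 : ((T N).degree (i, Sum.inl 0) : ℤ) = al i + 1 := by
  rw [deg_cast, nb0 i (fun _ => 1), sum_prev i (fun _ => 1) (fun _ _ => rfl)]

theorem dg1 : ((T N).degree (i, Sum.inl 1) : ℤ) = 9 := by
  rw [deg_cast, nb1 i (fun _ => 1)]
  simp

theorem dg2 : ((T N).degree (i, Sum.inl 2) : ℤ) = 9 := by
  rw [deg_cast, nb2 i (fun _ => 1)]
  simp

theorem dg3 : ((T N).degree (i, Sum.inl 3) : ℤ) = 1 + be i := by
  rw [deg_cast, nb3 i (fun _ => 1), sum_next i (fun _ => 1) (fun _ _ => rfl)]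

theorem dgf (x : Fin 7) : ((T N).degree (i, Sum.inr (false, x)) : ℤ) = 1 := by
  rw [deg_cast, nbf i (fun _ => 1)]

theorem dgt (x : Fin 7) : ((T N).degree (i, Sum.inr (true, x)) : ℤ) = 1 := by
  rw [deg_cast, nbt i (fun _ => 1)]

omit [DecidableRel (T N).Adj] in
theorem al_cases : al i = 0 ∨ al i = 1 := by
  unfold al
  split_ifs <;> simp

omit [DecidableRel (T N).Adj] in
theorem be_cases : be i = 0 ∨ be i = 1 := by
  unfold be
  split_ifs <;> simp

omit [DecidableRel (T N).Adj] in
theorem al_one (j : Fin N) (h : 0 < (j : ℕ)) : al j = 1 := if_pos h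

omit [DecidableRel (T N).Adj] in
theorem be_one (j : Fin N) (h : (j : ℕ) + 1 < N) : be j = 1 := if_pos h

theorem star_T (N : ℕ) : ((T N).copyCount starTree : ℤ) = 252 * N := by
  classical
  rw [star_count]
  push_cast
  rw [expand (fun v => (((T N).degree v).choose 4 : ℤ))]
  have h : ∀ j : Fin N,
      ((((T N).degree (j, Sum.inl 0)).choose 4 : ℤ) + (((T N).degree (j, Sum.inl 1)).choose 4 : ℤ) +
        (((T N).degree (j, Sum.inl 2)).choose 4 : ℤ) + (((T N).degree (j, Sum.inl 3)).choose 4 : ℤ) +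
        (∑ x, (((T N).degree (j, Sum.inr (false, x))).choose 4 : ℤ) +
          ∑ x, (((T N).degree (j, Sum.inr (true, x))).choose 4 : ℤ))) = 252 := by
    intro j
    have h0 := dg0 j
    have h1 := dg1 j
    have h2 := dg2 j
    have h3 := dg3 j
    have h0' : (T N).degree (j, Sum.inl 0) ≤ 2 := by
      rcases al_cases j with h | h <;> rw [h] at h0 <;> omega
    have h3' : (T N).degree (j, Sum.inl 3) ≤ 2 := by
      rcases be_cases j with h | h <;> rw [h] at h3 <;> omega
    have h1' : (T N).degree (j, Sum.inl 1) = 9 := by exact_mod_cast h1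
    have h2' : (T N).degree (j, Sum.inl 2) = 9 := by exact_mod_cast h2
    have hf : ∀ x, (T N).degree (j, Sum.inr (false, x)) = 1 := fun x => by
      exact_mod_cast dgf j x
    have ht : ∀ x, (T N).degree (j, Sum.inr (true, x)) = 1 := fun x => by
      exact_mod_cast dgt j x
    rw [Nat.choose_eq_zero_of_lt (show (T N).degree (j, Sum.inl 0) < 4 by omega),
      Nat.choose_eq_zero_of_lt (show (T N).degree (j, Sum.inl 3) < 4 by omega), h1', h2']
    simp only [hf, ht]
    decide
  rw [Finset.sum_congr rfl (fun j _ => h j)]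
  simp
  ring

theorem path_T (N : ℕ) (hT : (T N).IsAcyclic) :
    ((T N).copyCount pathTree : ℤ) = ∑ j : Fin N, 16 * (al j + be j) := by
  classical
  have h := path_count (T N) hT
  rw [expand (fun v => ((∑ a ∈ (T N).neighborFinset v, (((T N).degree a : ℤ) - 1)) ^ 2 -
      ∑ a ∈ (T N).neighborFinset v, (((T N).degree a : ℤ) - 1) ^ 2))] at h
  simp only [nb0 _ (fun a => ((T N).degree a : ℤ) - 1), nb1 _ (fun a => ((T N).degree a : ℤ) - 1),
    nb2 _ (fun a => ((T N).degree a : ℤ) - 1), nb3 _ (fun a => ((T N).degree a : ℤ) - 1),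
    nbf _ (fun a => ((T N).degree a : ℤ) - 1), nbt _ (fun a => ((T N).degree a : ℤ) - 1),
    nb0 _ (fun a => (((T N).degree a : ℤ) - 1) ^ 2), nb1 _ (fun a => (((T N).degree a : ℤ) - 1) ^ 2),
    nb2 _ (fun a => (((T N).degree a : ℤ) - 1) ^ 2), nb3 _ (fun a => (((T N).degree a : ℤ) - 1) ^ 2),
    nbf _ (fun a => (((T N).degree a : ℤ) - 1) ^ 2), nbt _ (fun a => (((T N).degree a : ℤ) - 1) ^ 2),
    dg0, dg1, dg2, dg3, dgf, dgt] at h
  have e : ∀ j : Fin N, _ := fun j => by
    have h1 := sum_prev j (fun l => 1 + be l - 1) (fun l hl => by rw [be_one l hl]; ring)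
    have h2 := sum_prev j (fun l => (1 + be l - 1) ^ 2) (fun l hl => by rw [be_one l hl]; ring)
    have h3 := sum_next j (fun l => al l + 1 - 1) (fun l hl => by rw [al_one l hl]; ring)
    have h4 := sum_next j (fun l => (al l + 1 - 1) ^ 2) (fun l hl => by rw [al_one l hl]; ring)
    exact And.intro h1 (And.intro h2 (And.intro h3 h4))
  rw [Finset.sum_congr rfl (fun j _ => by
    rw [(e j).1, (e j).2.1, (e j).2.2.1, (e j).2.2.2])] at h
  have h5 : 2 * ((T N).copyCount pathTree : ℤ) = 2 * ∑ j : Fin N, 16 * (al j + be j) := by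
    rw [h, Finset.mul_sum]
    apply Finset.sum_congr rfl
    intro j _
    simp only [Finset.sum_const, Finset.card_univ, Fintype.card_fin]
    rcases al_cases j with ha | ha <;> rcases be_cases j with hb | hb <;> rw [ha, hb] <;> norm_num
  linarith

theorem y_T (N : ℕ) (hT : (T N).IsAcyclic) :
    ((T N).copyCount yTree : ℤ) = ∑ j : Fin N, 28 * (16 + al j + be j) := by
  classical
  have h := y_count (T N) hT
  rw [expand (fun v => ∑ c ∈ (T N).neighborFinset v,
      (((T N).degree v : ℤ) - 1) * (((T N).degree v : ℤ) - 2) * (((T N).degree c : ℤ) - 1))] at h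
  simp only [← Finset.mul_sum] at h
  simp only [nb0 _ (fun a => ((T N).degree a : ℤ) - 1), nb1 _ (fun a => ((T N).degree a : ℤ) - 1),
    nb2 _ (fun a => ((T N).degree a : ℤ) - 1), nb3 _ (fun a => ((T N).degree a : ℤ) - 1),
    nbf _ (fun a => ((T N).degree a : ℤ) - 1), nbt _ (fun a => ((T N).degree a : ℤ) - 1),
    dg0, dg1, dg2, dg3, dgf, dgt] at h
  have e : ∀ j : Fin N, _ := fun j => by
    have h1 := sum_prev j (fun l => 1 + be l - 1) (fun l hl => by rw [be_one l hl]; ring)
    have h3 := sum_next j (fun l => al l + 1 - 1) (fun l hl => by rw [al_one l hl]; ring)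
    exact And.intro h1 h3
  rw [Finset.sum_congr rfl (fun j _ => by
    rw [(e j).1, (e j).2])] at h
  have h5 : 2 * ((T N).copyCount yTree : ℤ) = 2 * ∑ j : Fin N, 28 * (16 + al j + be j) := by
    rw [h, Finset.mul_sum]
    apply Finset.sum_congr rfl
    intro j _
    simp only [Finset.sum_const, Finset.card_univ, Fintype.card_fin]
    rcases al_cases j with ha | ha <;> rcases be_cases j with hb | hb <;> rw [ha, hb] <;> norm_num
  linarith

end

theorem sum_al (k : ℕ) : ∑ j : Fin (k + 1), al j = k := by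
  rw [Fin.sum_univ_succ]
  simp [al]

theorem sum_be (k : ℕ) : ∑ j : Fin (k + 1), be j = k := by
  rw [Fin.sum_univ_castSucc]
  simp [be]

theorem path_total (k : ℕ) : ((T (k + 1)).copyCount pathTree : ℤ) = 32 * k := by
  rw [path_T (k + 1) (T_tree k).isAcyclic, ← Finset.mul_sum, Finset.sum_add_distrib, sum_al, sum_be]
  ring

theorem y_total (k : ℕ) : ((T (k + 1)).copyCount yTree : ℤ) = 504 * k + 448 := by
  rw [y_T (k + 1) (T_tree k).isAcyclic, ← Finset.mul_sum, Finset.sum_add_distrib,
    Finset.sum_add_distrib, sum_al, sum_be]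
  simp
  ring

theorem star_total (k : ℕ) : ((T (k + 1)).copyCount starTree : ℤ) = 252 * k + 252 := by
  rw [star_T (k + 1)]
  push_cast
  ring

end Pool.Agent.Q267.TreeFamily
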