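import Mathlib

/-!
Arithmetic for the inequality `Y ≤ 9 S + P + 6`.
-/

namespace Pool.Agent.Q267.TreeIneq

open Finset

/-- twice the slope bound -/
def L (x : ℕ) : ℤ :=
  if x = 0 then 0 else if x = 1 then 6 else if x = 2 then 7 else if x = 3 then 11 else
  if x = 4 then 18 else if x = 5 then 27 else if x = 6 then 39 else 5 * (x : ℤ) ^ 2 / 4

/-- the defect -/
def D (x y : ℕ) : ℤ := (max (L x - 2 * y) 0) ^ 2 / 8

/-- the potential -/
def W (x y : ℕ) : ℤ := 9 * ((x + 1).choose 4 : ℤ) - D x y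

theorem L_big (x : ℕ) (h : 7 ≤ x) : L x = 5 * (x : ℤ) ^ 2 / 4 := by
  unfold L
  rw [if_neg (by omega), if_neg (by omega), if_neg (by omega), if_neg (by omega),
    if_neg (by omega), if_neg (by omega), if_neg (by omega)]

theorem L_lower (x : ℕ) (h : 7 ≤ x) : 5 * (x : ℤ) ^ 2 - 3 ≤ 4 * L x := by
  rw [L_big x h]
  omega

theorem L_upper (x : ℕ) (h : 7 ≤ x) : 4 * L x ≤ 5 * (x : ℤ) ^ 2 := by
  rw [L_big x h]
  omega

theorem choose_four (c : ℕ) : 24 * ((c + 1).choose 4 : ℤ) = (c + 1) * c * (c - 1) * (c - 2) := by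
  rcases c with _ | _ | c
  · simp [Nat.choose]
  · simp [Nat.choose]
  · have h := Nat.descFactorial_eq_factorial_mul_choose (c + 1 + 1 + 1) 4
    have h2 : (c + 1 + 1 + 1).descFactorial 4 = c * ((c + 1) * ((c + 2) * (c + 3))) := by
      simp [Nat.descFactorial_succ]
    rw [h2] at h
    have h3 : Nat.factorial 4 = 24 := rfl
    rw [h3] at h
    have h4 := congrArg (fun n : ℕ => (n : ℤ)) h
    push_cast at h4
    push_cast
    linarith

theorem D_nonneg (x y : ℕ) : 0 ≤ D x y := by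
  unfold D
  positivity

theorem D_zero (x y : ℕ) (h : L x ≤ 2 * y) : D x y = 0 := by
  unfold D
  rw [max_eq_right (by linarith)]
  norm_num

theorem D_le (x y : ℕ) (h : 0 ≤ L x - 2 * y) : 8 * D x y ≤ (L x - 2 * y) ^ 2 := by
  unfold D
  rw [max_eq_left h]
  omega

theorem star_small : ∀ c ∈ Finset.range 7, ∀ x ∈ (Finset.Icc 1 20 : Finset ℕ),
    (x : ℤ) * c * (x + c - 2) + c ^ 2 + 2 * D c x ≤ 18 * ((c + 1).choose 4 : ℤ) + L x * c := by
  decide +kernel

theorem star_mid (c x : ℕ) (hc : c < 7) (hx : 20 ≤ x) :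
    (x : ℤ) * c * (x + c - 2) + c ^ 2 + 2 * D c x ≤ 18 * ((c + 1).choose 4 : ℤ) + L x * c := by
  have h1 := L_lower x (by omega)
  have hx' : (20 : ℤ) ≤ x := by exact_mod_cast hx
  have h2 : D c x = 0 := by
    apply D_zero
    have : L c ≤ 39 := by
      interval_cases c <;> simp [L]
    linarith
  rw [h2]
  have h4 := choose_four c
  interval_cases c
  · simp
  all_goals
    norm_num at h4 ⊢
    nlinarith

theorem star_big (c x : ℕ) (hc : 7 ≤ c) (hx : 1 ≤ x) :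
    (x : ℤ) * c * (x + c - 2) + c ^ 2 + 2 * D c x ≤ 18 * ((c + 1).choose 4 : ℤ) + L x * c := by
  have h4 := choose_four c
  have hL := L_upper c hc
  have hc' : (7 : ℤ) ≤ c := by exact_mod_cast hc
  obtain ⟨k, hk⟩ : ∃ k : ℤ, (c : ℤ) = k + 7 ∧ 0 ≤ k := ⟨(c : ℤ) - 7, by ring, by linarith⟩
  obtain ⟨hk, hk0⟩ := hk
  have hx' : (1 : ℤ) ≤ x := by exact_mod_cast hx
  -- bound on D
  have hD : 0 ≤ 5 * (c : ℤ) ^ 2 - 8 * x ∧ 128 * D c x ≤ (5 * (c : ℤ) ^ 2 - 8 * x) ^ 2 ∨ D c x = 0 := by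
    by_cases h : 0 ≤ L c - 2 * x
    · left
      refine ⟨by linarith, ?_⟩
      have h1 := D_le c x h
      nlinarith
    · right
      exact D_zero c x (by linarith)
  suffices h : 64 * ((x : ℤ) * c * (x + c - 2) + c ^ 2) + 128 * D c x ≤
      48 * ((c + 1) * c * (c - 1) * (c - 2)) + 64 * (L x * c) by linarith
  have hP : (0 : ℤ) ≤ 48 * ((c + 1) * c * (c - 1) * (c - 2)) -
      (64 * c * (c - 2) ^ 2 + 64 * c ^ 2 + 48 * c + (5 * (c : ℤ) ^ 2 - 56) ^ 2) := by
    rw [hk]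
    ring_nf
    positivity
  by_cases hx7 : 7 ≤ x
  · have h1 := L_lower x hx7
    have hx7' : (7 : ℤ) ≤ x := by exact_mod_cast hx7
    have hq : 0 ≤ 16 * (c : ℤ) * (x - 2 * (c - 2)) ^ 2 := by positivity
    have h5 : 64 * (L x * c) ≥ (80 * (x : ℤ) ^ 2 - 48) * c := by nlinarith
    rcases hD with ⟨h6, h7⟩ | h7
    · have h8 : (5 * (c : ℤ) ^ 2 - 8 * x) ^ 2 ≤ (5 * (c : ℤ) ^ 2 - 56) ^ 2 := by
        apply pow_le_pow_left₀ h6
        linarith
      nlinarith
    · rw [h7]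
      have h9 : 0 ≤ (5 * (c : ℤ) ^ 2 - 56) ^ 2 := sq_nonneg _
      nlinarith
  · have hlt : x < 7 := by omega
    have hLx : (x : ℤ) ^ 2 + 2 ≤ L x := by
      interval_cases x <;> simp [L]
    have h5 : 64 * (L x * c) ≥ 64 * ((x : ℤ) ^ 2 + 2) * c := by nlinarith
    have key : 64 * ((x : ℤ) * c * (x + c - 2) + c ^ 2) + (5 * (c : ℤ) ^ 2 - 8 * x) ^ 2 ≤
        48 * ((c + 1) * c * (c - 1) * (c - 2)) + 64 * ((x : ℤ) ^ 2 + 2) * c := by
      rw [hk]
      interval_cases x <;> push_cast <;> nlinarith [mul_nonneg hk0 hk0, mul_nonneg (mul_nonneg hk0 hk0) hk0,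
        mul_nonneg (mul_nonneg hk0 hk0) (mul_nonneg hk0 hk0)]
    rcases hD with ⟨h6, h7⟩ | h7
    · linarith
    · rw [h7]
      have h9 : 0 ≤ (5 * (c : ℤ) ^ 2 - 8 * x) ^ 2 := sq_nonneg _
      linarith

theorem star (c x : ℕ) (hx : 1 ≤ x) :
    (x : ℤ) * c * (x + c - 2) + c ^ 2 + 2 * D c x ≤ 18 * ((c + 1).choose 4 : ℤ) + L x * c := by
  by_cases hc : 7 ≤ c
  · exact star_big c x hc hx
  · by_cases h : x ≤ 20
    · exact star_small c (Finset.mem_range.mpr (by omega)) x (Finset.mem_Icc.mpr ⟨hx, h⟩)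
    · exact star_mid c x (by omega) (by omega)

theorem even_term (x c : ℤ) (h D : ℤ) :
    Even ((c ^ 2 - c) + x * c * (x + c - 2) - (18 * h - 2 * D)) := by
  have h1 : Even (c ^ 2 - c) := by
    have : c ^ 2 - c = (c - 1) * c := by ring
    rw [this]
    have := Int.even_mul_succ_self (c - 1)
    simpa using this
  have h2 : Even (x * c * (x + c - 2)) := by
    rcases Int.even_or_odd x with hx | hx <;> rcases Int.even_or_odd c with hc | hc
    · exact (hx.mul_right c).mul_right _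
    · exact (hx.mul_right c).mul_right _
    · exact (hc.mul_left x).mul_right _
    · apply Even.mul_left
      have : Even (x + c) := hx.add_odd hc
      exact this.sub (by decide)
  have h3 : Even (18 * h - 2 * D) := ⟨9 * h - D, by ring⟩
  exact (h1.add h2).sub h3

/-- the local inequality at a vertex with `s.card` children and a parent -/
theorem local_ineq {ι : Type*} (s : Finset ι) (c : ι → ℕ) (y : ℕ) :
    2 * W s.card y ≤ 18 * ((s.card + 1).choose 4 : ℤ) +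
      (((y : ℤ) + ∑ i ∈ s, (c i : ℤ)) ^ 2 - ((y : ℤ) ^ 2 + ∑ i ∈ s, (c i : ℤ) ^ 2)) -
      ∑ i ∈ s, (s.card : ℤ) * c i * (s.card + c i - 2) + ∑ i ∈ s, 2 * W (c i) s.card := by
  rcases Finset.eq_empty_or_nonempty s with rfl | hs
  · simp [W, D_zero 0 y (by simp [L]), Nat.choose]
  have hx : 1 ≤ s.card := hs.card_pos
  set x := s.card with hxdef
  set S : ℤ := ∑ i ∈ s, (c i : ℤ) with hS
  have hS0 : 0 ≤ S := Finset.sum_nonneg (fun i _ => Int.natCast_nonneg _)
  set T : ℤ := ∑ i ∈ s, (((c i : ℤ) ^ 2 - c i) + (x : ℤ) * c i * (x + c i - 2) -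
    (18 * ((c i + 1).choose 4 : ℤ) - 2 * D (c i) x)) with hT
  have hTle : T ≤ L x * S - S := by
    rw [hT, hS, Finset.mul_sum, ← Finset.sum_sub_distrib]
    apply Finset.sum_le_sum
    intro i _
    have := star (c i) x hx
    linarith
  have hTeven : Even T := by
    rw [hT]
    exact Finset.even_sum _ (fun i _ => even_term _ _ _ _)
  have hSeven : Even (S ^ 2 - S) := by
    have : S ^ 2 - S = (S - 1) * S := by ring
    rw [this]
    have := Int.even_mul_succ_self (S - 1)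
    simpa using this
  obtain ⟨t, ht⟩ := hTeven
  obtain ⟨u, hu⟩ := hSeven
  -- the target
  have hmain : - D x y ≤ y * S + u - t := by
    have h1 : 2 * (y * S + u - t) ≥ S ^ 2 - (L x - 2 * y) * S := by nlinarith
    by_cases hm : 0 ≤ L x - 2 * y
    · unfold D
      rw [max_eq_left hm]
      have h2 : -(8 * (y * S + u - t)) ≤ (L x - 2 * y) ^ 2 := by
        nlinarith [sq_nonneg (2 * S - (L x - 2 * y))]
      omega
    · rw [D_zero x y (by linarith)]
      push Not at hm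
      have h2 : 0 ≤ -(L x - 2 * y) * S := mul_nonneg (by linarith) hS0
      have h3 : 0 ≤ S ^ 2 := sq_nonneg _
      have : 0 ≤ 2 * (y * S + u - t) := by nlinarith
      linarith
  have hW : ∑ i ∈ s, 2 * W (c i) x = ∑ i ∈ s, (18 * ((c i + 1).choose 4 : ℤ) - 2 * D (c i) x) := by
    apply Finset.sum_congr rfl
    intro i _
    unfold W
    ring
  have hT2 : T = ∑ i ∈ s, (c i : ℤ) ^ 2 - S + ∑ i ∈ s, (x : ℤ) * c i * (x + c i - 2) -
      ∑ i ∈ s, (18 * ((c i + 1).choose 4 : ℤ) - 2 * D (c i) x) := by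
    rw [hT, hS, ← Finset.sum_sub_distrib, ← Finset.sum_add_distrib, ← Finset.sum_sub_distrib]
  rw [hW]
  have hWx : 2 * W x y = 18 * ((x + 1).choose 4 : ℤ) - 2 * D x y := by
    unfold W
    ring
  rw [hWx]
  nlinarith

theorem W_zero_lower (x : ℕ) : -6 ≤ W x 0 := by
  by_cases h : x < 7
  · interval_cases x <;> simp [W, D, L, Nat.choose]
  · push Not at h
    have h1 := L_upper x h
    have h2 := L_lower x h
    have hx : (7 : ℤ) ≤ x := by exact_mod_cast h
    have h3 : 0 ≤ L x - 2 * ((0 : ℕ) : ℤ) := by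
      push_cast
      nlinarith
    have h4 := D_le x 0 h3
    have h5 := choose_four x
    unfold W
    push_cast at h4
    have h6 : (L x) ^ 2 * 16 ≤ 25 * (x : ℤ) ^ 4 := by nlinarith
    obtain ⟨k, hk⟩ : ∃ k : ℤ, (x : ℤ) = k + 7 ∧ 0 ≤ k := ⟨(x : ℤ) - 7, by ring, by linarith⟩
    obtain ⟨hk, hk0⟩ := hk
    have h7 : 25 * (x : ℤ) ^ 4 ≤ 48 * ((x + 1) * x * (x - 1) * (x - 2)) := by
      rw [hk]
      nlinarith [mul_nonneg hk0 hk0, mul_nonneg (mul_nonneg hk0 hk0) hk0,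
        mul_nonneg (mul_nonneg hk0 hk0) (mul_nonneg hk0 hk0)]
    nlinarith

end Pool.Agent.Q267.TreeIneq
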