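import Mathlib
import Pool.Agent.Q267.TreeCounts
import Pool.Agent.Q267.TreeIneq

/-!
Every finite tree satisfies `Y ≤ 9 S + P + 6`.
-/

namespace Pool.Agent.Q267.TreeQ2

open SimpleGraph Finset
open Pool.Agent.Q267.CopyAut Pool.Agent.Q267.TreeCounts Pool.Agent.Q267.TreeIneq

variable {V : Type*} [Fintype V] [DecidableEq V]

section
variable (G : SimpleGraph V) [DecidableRel G.Adj] (r : V)

/-- children -/
noncomputable def Ch (v : V) : Finset V := univ.filter (fun w => G.Adj v w ∧ G.dist r w = G.dist r v + 1)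

/-- parents -/
noncomputable def Pa (v : V) : Finset V := univ.filter (fun w => G.Adj v w ∧ G.dist r v = G.dist r w + 1)

theorem mem_Ch (v w : V) : w ∈ Ch G r v ↔ G.Adj v w ∧ G.dist r w = G.dist r v + 1 := by
  simp [Ch]

theorem mem_Pa (v w : V) : w ∈ Pa G r v ↔ G.Adj v w ∧ G.dist r v = G.dist r w + 1 := by
  simp [Pa]

theorem swap {M : Type*} [AddCommMonoid M] (g : V → V → M) :
    ∑ v, ∑ w ∈ Pa G r v, g v w = ∑ v, ∑ w ∈ Ch G r v, g w v := by
  apply Finset.sum_comm'
  intro v w
  simp only [mem_univ, true_and, and_true, mem_Pa, mem_Ch]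
  exact ⟨fun h => ⟨h.1.symm, h.2⟩, fun h => ⟨h.1.symm, h.2⟩⟩

variable {G} in
theorem nbr_union (hG : G.IsTree) (v : V) : G.neighborFinset v = Ch G r v ∪ Pa G r v := by
  ext w
  simp only [mem_neighborFinset, mem_union, mem_Ch, mem_Pa]
  constructor
  · intro h
    rcases hG.dist_eq_dist_add_one_of_adj r h with h1 | h1
    · exact Or.inr ⟨h, h1⟩
    · exact Or.inl ⟨h, h1⟩
  · rintro (h | h)
    · exact h.1
    · exact h.1

theorem disj (v : V) : Disjoint (Ch G r v) (Pa G r v) := by
  rw [Finset.disjoint_left]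
  intro w h1 h2
  rw [mem_Ch] at h1
  rw [mem_Pa] at h2
  omega

theorem sum_nbr_split {M : Type*} [AddCommMonoid M] (hG : G.IsTree) (v : V) (g : V → M) :
    ∑ w ∈ G.neighborFinset v, g w = ∑ w ∈ Ch G r v, g w + ∑ w ∈ Pa G r v, g w := by
  rw [nbr_union r hG v, Finset.sum_union (disj G r v)]

theorem Pa_root : Pa G r r = ∅ := by
  ext w
  simp [mem_Pa]

theorem Pa_single (hG : G.IsTree) (v : V) (hv : v ≠ r) : ∃ p, Pa G r v = {p} := by
  obtain ⟨P, hP, hPl⟩ := hG.connected.exists_path_of_dist r v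
  have hlen : 0 < P.length := by
    rcases Nat.eq_zero_or_pos P.length with h | h
    · exact absurd (Walk.eq_of_length_eq_zero h).symm hv
    · exact h
  have hnn : ¬ P.Nil := by
    rw [← Walk.length_eq_zero_iff]
    omega
  refine ⟨P.penultimate, ?_⟩
  ext w
  rw [mem_Pa, mem_singleton]
  constructor
  · rintro ⟨h1, h2⟩
    apply hG.isAcyclic.eq_penultimate_of_adj_end hP h1
    by_contra hw
    obtain ⟨Q, hQ, hQl⟩ := hG.connected.exists_path_of_dist r w
    have h3 := hG.isAcyclic.mem_support_of_ne_mem_support_of_adj_of_isPath hQ hP h1.symm hw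
    have h4 := hG.isAcyclic.path_concat hP hQ h1 h3
    have h5 := congrArg Walk.length h4
    rw [Walk.length_concat] at h5
    omega
  · rintro rfl
    have hadj : G.Adj P.penultimate v := P.adj_penultimate hnn
    refine ⟨hadj.symm, ?_⟩
    have h1 : G.dist r P.penultimate ≤ P.dropLast.length := SimpleGraph.dist_le _
    have h2 : P.dropLast.length + 1 = P.length := P.length_dropLast_add_one hnn
    rcases hG.dist_eq_dist_add_one_of_adj r hadj with h3 | h3
    · omega
    · exact h3

/-- the natural number `deg v - 1` -/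
noncomputable def xx (v : V) : ℕ := G.degree v - 1

theorem xx_cast (hG : G.IsTree) [Nontrivial V] (v : V) : ((xx G v : ℕ) : ℤ) = (G.degree v : ℤ) - 1 := by
  have h : 1 ≤ G.degree v := by
    rw [Nat.one_le_iff_ne_zero, ← Nat.pos_iff_ne_zero]
    exact hG.connected.preconnected.degree_pos_of_nontrivial v
  unfold xx
  push_cast [Nat.cast_sub h]
  ring

theorem y_count' (hG : G.IsTree) [Nontrivial V] :
    2 * (G.copyCount yTree : ℤ) = ∑ v, ∑ w ∈ Ch G r v,
      (xx G v : ℤ) * xx G w * (xx G v + xx G w - 2) := by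
  rw [y_count G hG.isAcyclic]
  have h1 : ∀ v : V, ∑ c ∈ G.neighborFinset v,
      ((G.degree v : ℤ) - 1) * ((G.degree v : ℤ) - 2) * ((G.degree c : ℤ) - 1) =
      ∑ c ∈ Ch G r v, (xx G v : ℤ) * (xx G v - 1) * xx G c +
      ∑ c ∈ Pa G r v, (xx G v : ℤ) * (xx G v - 1) * xx G c := by
    intro v
    rw [sum_nbr_split G r hG]
    congr 1
    all_goals
      apply Finset.sum_congr rfl
      intro c _
      rw [xx_cast G hG v, xx_cast G hG c]
      ring
  rw [Finset.sum_congr rfl (fun v _ => h1 v), Finset.sum_add_distrib]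
  rw [swap G r (fun v c => (xx G v : ℤ) * (xx G v - 1) * xx G c), ← Finset.sum_add_distrib]
  apply Finset.sum_congr rfl
  intro v _
  rw [← Finset.sum_add_distrib]
  apply Finset.sum_congr rfl
  intro w _
  ring

theorem main_of_root (hG : G.IsTree) [Nontrivial V] (hr : G.degree r = 1) :
    (G.copyCount yTree : ℤ) ≤ 9 * G.copyCount starTree + G.copyCount pathTree + 6 := by
  have hY := y_count' G r hG
  have hP := path_count G hG.isAcyclic
  have hS := star_count G
  have hS' : (G.copyCount starTree : ℤ) = ∑ v, ((xx G v + 1).choose 4 : ℤ) := by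
    rw [hS]
    push_cast
    apply Finset.sum_congr rfl
    intro v _
    have h := xx_cast G hG v
    have h2 : xx G v + 1 = G.degree v := by omega
    rw [h2]
  -- local inequality
  have hloc : ∀ v : V, ∑ w ∈ Pa G r v, 2 * W (xx G v) (xx G w) ≤
      18 * ((xx G v + 1).choose 4 : ℤ) +
      ((∑ a ∈ G.neighborFinset v, ((G.degree a : ℤ) - 1)) ^ 2 -
        ∑ a ∈ G.neighborFinset v, ((G.degree a : ℤ) - 1) ^ 2) -
      ∑ w ∈ Ch G r v, (xx G v : ℤ) * xx G w * (xx G v + xx G w - 2) +
      ∑ w ∈ Ch G r v, 2 * W (xx G w) (xx G v) + (if v = r then 12 else 0) := by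
    intro v
    have e1 : ∑ a ∈ G.neighborFinset v, ((G.degree a : ℤ) - 1) =
        ∑ a ∈ Ch G r v, (xx G a : ℤ) + ∑ a ∈ Pa G r v, (xx G a : ℤ) := by
      rw [sum_nbr_split G r hG]
      congr 1
      all_goals
        apply Finset.sum_congr rfl
        intro c _
        rw [xx_cast G hG c]
    have e2 : ∑ a ∈ G.neighborFinset v, ((G.degree a : ℤ) - 1) ^ 2 =
        ∑ a ∈ Ch G r v, (xx G a : ℤ) ^ 2 + ∑ a ∈ Pa G r v, (xx G a : ℤ) ^ 2 := by
      rw [sum_nbr_split G r hG]
      congr 1
      all_goals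
        apply Finset.sum_congr rfl
        intro c _
        rw [xx_cast G hG c]
    have hcard : (Ch G r v).card + (Pa G r v).card = G.degree v := by
      rw [← card_neighborFinset_eq_degree, nbr_union r hG v,
        Finset.card_union_of_disjoint (disj G r v)]
    rw [e1, e2]
    by_cases hv : v = r
    · subst hv
      rw [Pa_root, if_pos rfl]
      rw [Pa_root, Finset.card_empty, hr] at hcard
      obtain ⟨u, hu⟩ := Finset.card_eq_one.mp hcard
      rw [hu]
      have hx0 : xx G v = 0 := by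
        unfold xx
        omega
      rw [hx0]
      have := W_zero_lower (xx G u)
      simp [Nat.choose]
      linarith
    · obtain ⟨p, hp⟩ := Pa_single G r hG v hv
      rw [hp, if_neg hv]
      rw [hp, Finset.card_singleton] at hcard
      have hc : (Ch G r v).card = xx G v := by
        unfold xx
        omega
      have := local_ineq (Ch G r v) (fun w => xx G w) (xx G p)
      rw [hc] at this
      simp only [Finset.sum_singleton]
      have e3 : (∑ a ∈ Ch G r v, (xx G a : ℤ) + (xx G p : ℤ)) ^ 2 -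
          (∑ a ∈ Ch G r v, (xx G a : ℤ) ^ 2 + (xx G p : ℤ) ^ 2) =
          ((xx G p : ℤ) + ∑ a ∈ Ch G r v, (xx G a : ℤ)) ^ 2 -
          ((xx G p : ℤ) ^ 2 + ∑ a ∈ Ch G r v, (xx G a : ℤ) ^ 2) := by ring
      rw [e3]
      linarith
  have hsum := Finset.sum_le_sum (fun v (_ : v ∈ (univ : Finset V)) => hloc v)
  rw [swap G r (fun v w => 2 * W (xx G v) (xx G w))] at hsum
  simp only [Finset.sum_add_distrib, Finset.sum_sub_distrib] at hsum hP
  rw [← Finset.mul_sum, ← hS', ← hY] at hsum
  rw [Finset.sum_ite_eq' univ r (fun _ => (12 : ℤ)), if_pos (mem_univ r)] at hsum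
  linarith

end

end Pool.Agent.Q267.TreeQ2
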